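import Pool.Agent.Work.MP_38c61c_al.Oct.Defs

/-!
The relations in characteristic 2 for `d = 4` and a linear form without any symmetry.
-/

namespace CSLef.Oct

open MvPolynomial Finset CSLef

theorem claimAnn2 : ClaimAnn2 := by
  intro V _ _ F _ _ Δ α VP p D μ c Dm Dc S x hx h
  have hwX : ∀ v, piF Δ 4 p D (wel 4 α VP p μ c * (X v * x ^ 2)) = 0 := by
    intro v
    rw [← mul_assoc]
    exact h v
  have hX2 : ∀ u, ∀ g : MvPolynomial V F, Con g → g.IsHomogeneous (2 - 1) →
      piF Δ 4 p D (yy F α u * (g * x ^ 2)) = 0 := by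
    intro u g hg hgh
    apply derive_c S (hg.mul (Con.sq _))
    obtain ⟨g', hg'1, hg'2⟩ := hom_split (i := 0) hgh
    rw [hg'2, Finset.sum_mul, Finset.mul_sum, map_sum]
    apply Finset.sum_eq_zero
    intro v _
    have hC : g' v = C (coeff 0 (g' v)) :=
      totalDegree_eq_zero_iff_eq_C.mp (Nat.le_zero.mp (hg'1 v).totalDegree_le)
    rw [hC]
    have h3 : wel 4 α VP p μ c * (X v * C (coeff 0 (g' v)) * x ^ 2) =
      C (coeff 0 (g' v)) * (wel 4 α VP p μ c * (X v * x ^ 2)) := by ring
    rw [h3, ← smul_eq_C_mul, map_smul, hwX, smul_zero]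
  have ha : ∀ v (gs : List V), gs.length + 1 + 1 = 4 →
      piF Δ 4 p D (X v * (gs.map (yy F α)).prod * x) = 0 := by
    intro v gs hgs
    exact rel_a S (r := 2) (e := 1) (by norm_num) (by norm_num)
      (fun h1 => absurd h1 (by norm_num)) (fun _ => hX2) v gs hgs
  have hb : ∀ v u' (gs : List V), gs.length + 2 + 1 = 4 →
      piF Δ 4 p D (X v * X u' * (gs.map (yy F α)).prod * x) = 0 := by
    intro v u' gs hgs
    apply rel_b2 S (e := 1) (by norm_num) _ ha v u' gs hgs
    intro v
    exact derive_m S ((Con.X v).mul (Con.sq _)) (hwX v) (by omega)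
  intro u
  have hyy : (yy F α u : MvPolynomial V F).IsHomogeneous 1 := by
    unfold yy
    exact (isHomogeneous_X F _).add (isHomogeneous_X F _)
  apply nondeg_pi S (i := 2) (k := 2) (by norm_num) (by norm_num) (hyy.mul hx)
  intro G hG hcard
  obtain ⟨v, w, hvw, rfl⟩ := Finset.card_eq_two.1 hcard
  have h1 := hb v w [u] rfl
  rw [List.map_singleton, List.prod_singleton] at h1
  have h2 : (xm F {v, w} : MvPolynomial V F) = X v * X w := by
    unfold xm
    rw [Finset.prod_pair hvw]
  rw [h2, ← mul_assoc]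
  exact h1

end CSLef.Oct
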