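import Mathlib
import Pool.Agent.Work.MP_38c61c_al.Generic

/-!
Invariant octahedra in centrally symmetric 3-spheres: definitions and statements of the items.
-/

namespace CSLef.Oct

open MvPolynomial Finset CSLef

variable {V : Type} [Fintype V] [DecidableEq V]

/-- `G` has three elements and all its flips are faces: `Δ` contains the invariant octahedron on
the vertices `g` and `α g`, `g ∈ G`. -/
structure IsOct (Δ : Finset (Finset V)) (α : Equiv.Perm V) (G : Finset V) : Prop where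
  card : G.card = 3
  all : ∀ T ⊆ G, flip α G T ∈ Δ

/-- `I` is the set of vertices on one side of the invariant octahedron of `G`, and `v0` is the
vertex on that side with `insert v0 G` a facet. -/
structure Side (Δ : Finset (Finset V)) (α : Equiv.Perm V) (G I : Finset V) (v0 : V) : Prop where
  oct : IsOct Δ α G
  off : ∀ v ∈ I, v ∉ G ∧ α v ∉ G
  cover : ∀ v, {v} ∈ Δ → v ∉ G → α v ∉ G → v ∈ I ∨ α v ∈ I
  sep : ∀ F ∈ Δ, ∀ v ∈ I, v ∈ F → ∀ u ∈ I, α u ∉ F
  apex : v0 ∈ I
  facet : insert v0 G ∈ Δ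
  uniq : ∀ v ∈ I, insert v G ∈ Δ → v = v0

/-- Parity: no `α`-invariant chain of facets has the octahedron as its boundary. -/
def ClaimPar : Prop :=
  ∀ {V : Type} [Fintype V] [DecidableEq V] (Δ : Finset (Finset V)) (α : Equiv.Perm V)
    (G : Finset V), (∀ F ∈ Δ, ∀ G, G ⊆ F → G ∈ Δ) → IsCS Δ α → IsOct Δ α G →
    ∀ b : Finset V → ZMod 2, (∀ F ∈ Δ, F.card = 4 → b (F.image α) = b F) →
    ¬ (∀ F ∈ Δ, F.card = 3 → bd Δ b F = if ∃ T ⊆ G, F = flip α G T then 1 else 0)

/-- Separation. -/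
def ClaimSide : Prop :=
  ∀ {V : Type} [Fintype V] [DecidableEq V] (Δ : Finset (Finset V)) (α : Equiv.Perm V)
    (G : Finset V), IsHomSphere Δ 4 → IsCS Δ α → IsOct Δ α G → ∃ I v0, Side Δ α G I v0

/-- Normalized linear forms in the ideal: `n` vanishes on `G` and is `1` at `v0`; for `k ∈ G`
the row `τ k` is dual to `G`. -/
structure Nrm {R : Type*} [CommRing R] (Δ : Finset (Finset V)) (α : Equiv.Perm V)
    (a : ℕ → V → R) (G : Finset V) (v0 : V) (n : V → R) (τ : V → V → R) : Prop where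
  n_mem : lin n ∈ Jid Δ a 4
  n_anti : ∀ v, n (α v) = - n v
  n_G : ∀ k ∈ G, n k = 0
  n_v0 : n v0 = 1
  t_mem : ∀ k ∈ G, lin (τ k) ∈ Jid Δ a 4
  t_anti : ∀ k ∈ G, ∀ v, τ k (α v) = - τ k v
  t_G : ∀ k ∈ G, ∀ k' ∈ G, τ k k' = if k = k' then 1 else 0

/-- Existence of normalized forms over a local ring. -/
def ClaimNrm : Prop :=
  ∀ {V : Type} [Fintype V] [DecidableEq V] {R F : Type} [CommRing R] [IsDomain R]
    [IsLocalRing R] [Field F] (π : R →+* F) (Δ : Finset (Finset V)) (α : Equiv.Perm V)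
    (a : ℕ → V → R) (G : Finset V) (v0 : V), (∀ r, ¬ IsUnit r → π r = 0) →
    Ind Δ (fun l v => π (a l v)) → (∀ l v, a l (α v) = - a l v) → G.card = 3 → v0 ∉ G →
    insert v0 G ∈ Δ → ∃ n τ, Nrm Δ α a G v0 n τ

/-- The ring `RR d V` is real. -/
def ClaimReal : Prop :=
  ∀ (d : ℕ) (V : Type) [Fintype V] [DecidableEq V] (A B C : RR d V),
    A * A + B * B + C * C = 0 → A = 0 ∧ B = 0 ∧ C = 0

/-- The coefficients of the generic Lefschetz element are not antisymmetric. -/
def ClaimOm : Prop :=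
  ∀ (d : ℕ) {V : Type} [Fintype V] [DecidableEq V] (α : Equiv.Perm V) (VP : Finset V),
    (∀ v, α (α v) = v) → (∀ v, v ∈ VP ↔ α v ∉ VP) → ∀ k : V,
    coeff (Finsupp.single k 1) (welA d α VP (fun l v => algebraMap (PR d V) (RR d V)
        (aP d α VP l v)) (fun l => algebraMap (PR d V) (RR d V) (muP l))
        (fun v => algebraMap (PR d V) (RR d V) (cP v))) +
      coeff (Finsupp.single (α k) 1) (welA d α VP (fun l v => algebraMap (PR d V) (RR d V)
        (aP d α VP l v)) (fun l => algebraMap (PR d V) (RR d V) (muP l))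
        (fun v => algebraMap (PR d V) (RR d V) (cP v))) ≠ 0

/-- Without invariant octahedron the flips are affinely independent. -/
def ClaimNoOct : Prop :=
  ∀ {V : Type} [Fintype V] [DecidableEq V] (Δ : Finset (Finset V)) (α : Equiv.Perm V),
    (∀ F ∈ Δ, ∀ G, G ⊆ F → G ∈ Δ) → (∀ F ∈ Δ, F.card ≤ 4) → IsCS Δ α →
    (¬ ∃ G, IsOct Δ α G) → CondAff Δ α 4

/-- The relations in characteristic 2 for `d = 4` and a linear form without any symmetry. -/
def ClaimAnn2 : Prop :=
  ∀ {V : Type} [Fintype V] [DecidableEq V] {F : Type} [Field F] [CharP F 2]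
    {Δ : Finset (Finset V)} {α : Equiv.Perm V}
    {VP : Finset V} {p : ℕ → V ⊕ Bool → F} {D : ℕ → V ⊕ Bool → Derivation ℤ F F}
    {μ : ℕ → F} {c : V → F} {Dm : ℕ → Derivation ℤ F F} {Dc : V → Derivation ℤ F F},
    Setup Δ 4 α VP p D μ c Dm Dc → ∀ x : MvPolynomial V F, x.IsHomogeneous 1 →
    (∀ v, piF Δ 4 p D ((wel 4 α VP p μ c) * X v * x ^ 2) = 0) →
    ∀ u, yy F α u * x ∈ Jid Δ (rows p) 4

end CSLef.Oct
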