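import Mathlib
import Pool.Agent.Work.MP_38c61c_al.Oct.Defs

/-!
The linear form supported on one side of an invariant octahedron.
-/

namespace CSLef.Oct

open MvPolynomial Finset CSLef

variable {V : Type} [Fintype V] [DecidableEq V] {R : Type*} [CommRing R]
  {Δ : Finset (Finset V)} {α : Equiv.Perm V} {a : ℕ → V → R} {G I : Finset V} {v0 : V}
  {n : V → R} {τ : V → V → R}

/-- the linear form -/
noncomputable def XO (I : Finset V) (n : V → R) : MvPolynomial V R := ∑ v ∈ I, C (n v) * X v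

theorem XO_hom : (XO I n).IsHomogeneous 1 := by
  unfold XO
  apply IsHomogeneous.sum
  intro v _
  rw [show 1 = 0 + 1 from rfl]
  exact (isHomogeneous_C V _).mul (isHomogeneous_X R v)

theorem ghost {v : V} (hv : {v} ∉ Δ) : (X v : MvPolynomial V R) ∈ Jid Δ a 4 := by
  have h := xm_mem_sr (F := R) hv
  unfold xm at h
  rw [Finset.prod_singleton] at h
  exact sr_le_J 4 h

theorem pair_mem (hα : IsCS Δ α) (k : V) :
    (X k * X (α k) : MvPolynomial V R) ∈ Jid Δ a 4 := by
  have h1 : ({k, α k} : Finset V) ∉ Δ := by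
    intro h
    exact hα.no_pair _ h k (by simp) (by simp)
  have h := xm_mem_sr (F := R) h1
  unfold xm at h
  rw [Finset.prod_pair (hα.fpf k).symm] at h
  exact sr_le_J 4 h

section side

variable (hS : Side Δ α G I v0)

include hS

theorem edge0 {v u : V} (hv : v ∈ I) (hu : u ∈ I) :
    (X v * X (α u) : MvPolynomial V R) ∈ Jid Δ a 4 := by
  by_cases hvu : v = α u
  · have h1 : {v} ∉ Δ := by
      intro h
      exact hS.sep _ h v hv (by simp) u hu (by simp [hvu])
    exact Ideal.mul_mem_right _ _ (ghost h1)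
  · have h1 : ({v, α u} : Finset V) ∉ Δ := by
      intro h
      exact hS.sep _ h v hv (by simp) u hu (by simp)
    have h := xm_mem_sr (F := R) h1
    unfold xm at h
    rw [Finset.prod_pair hvu] at h
    exact sr_le_J 4 h

theorem G_mem : G ∈ Δ := by
  have := hS.oct.all ∅ (Finset.empty_subset _)
  simpa [flip] using this

theorem G_pair (hα : IsCS Δ α) {k : V} (hk : k ∈ G) : α k ∉ G :=
  hα.no_pair G (G_mem hS) k hk

/-- case distinction for the vertices off the octahedron -/
theorem off_cases (hα : IsCS Δ α) {v : V} (hv : v ∉ G) (hv' : α v ∉ G) :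
    {v} ∉ Δ ∨ v ∈ I ∨ ∃ u ∈ I, v = α u := by
  by_cases h : {v} ∈ Δ
  · rcases hS.cover v h hv hv' with h1 | h1
    · exact Or.inr (Or.inl h1)
    · exact Or.inr (Or.inr ⟨α v, h1, (hα.invol v).symm⟩)
  · exact Or.inl h

theorem n_zero (hα : IsCS Δ α) (hN : Nrm Δ α a G v0 n τ) {u : V} (hu : u ∉ I)
    (hu2 : α u ∉ I) (hu3 : {u} ∈ Δ) : n u = 0 := by
  by_cases h1 : u ∈ G
  · exact hN.n_G u h1
  by_cases h2 : α u ∈ G
  · have := hN.n_anti u
    rw [hN.n_G _ h2] at this
    exact neg_eq_zero.mp this.symm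
  rcases hS.cover u hu3 h1 h2 with h | h
  · exact absurd h hu
  · exact absurd h hu2

theorem XO_off (hα : IsCS Δ α) (hN : Nrm Δ α a G v0 n τ) {v : V} (hv : v ∉ G) (hv' : α v ∉ G) :
    X v * XO I n ∈ Jid Δ a 4 := by
  rcases off_cases hS hα hv hv' with h | h | ⟨u, hu, rfl⟩
  · exact Ideal.mul_mem_right _ _ (ghost h)
  · have h1 : X v * XO I n = X v * lin n - X v * ∑ u ∈ univ.filter (fun u => u ∉ I), C (n u) * X u := by
      unfold XO lin
      rw [← Finset.sum_filter_add_sum_filter_not Finset.univ (fun v => v ∈ I)]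
      have h1 : Finset.univ.filter (fun v => v ∈ I) = I := by ext; simp
      rw [h1]
      ring
    rw [h1]
    apply Ideal.sub_mem _ (Ideal.mul_mem_left _ _ hN.n_mem)
    rw [Finset.mul_sum]
    apply Ideal.sum_mem
    intro u hu
    have huI : u ∉ I := (Finset.mem_filter.mp hu).2
    by_cases h3 : {u} ∈ Δ
    · by_cases h4 : α u ∈ I
      · have := edge0 (R := R) (a := a) hS h h4
        rw [hα.invol] at this
        rw [mul_left_comm]
        exact Ideal.mul_mem_left _ _ this
      · rw [n_zero hS hα hN huI h4 h3, C_0, zero_mul, mul_zero]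
        exact Ideal.zero_mem _
    · exact Ideal.mul_mem_left _ _ (Ideal.mul_mem_left _ _ (ghost h3))
  · unfold XO
    rw [Finset.mul_sum]
    apply Ideal.sum_mem
    intro v hv
    have := edge0 (R := R) (a := a) hS hv hu
    rw [mul_left_comm, mul_comm (X (α u))]
    exact Ideal.mul_mem_left _ _ this

/-- splitting a sum over all vertices -/
theorem sum_split (hα : IsCS Δ α) {M : Type*} [AddCommMonoid M] (f : V → M) :
    ∑ u, f u = ∑ k ∈ G, f k + ∑ k ∈ G, f (α k) +
      ∑ u ∈ univ.filter (fun u => u ∉ G ∧ α u ∉ G), f u := by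
  have h1 : ∑ k ∈ G, f (α k) = ∑ u ∈ G.image α, f u := by
    rw [Finset.sum_image (fun a _ b _ hab => α.injective hab)]
  have h2 : Disjoint G (G.image α) := by
    rw [Finset.disjoint_left]
    intro x hx hx'
    rw [Finset.mem_image] at hx'
    obtain ⟨y, hy, rfl⟩ := hx'
    exact G_pair hS hα hy hx
  rw [h1, ← Finset.sum_union h2, ← Finset.sum_filter_add_sum_filter_not Finset.univ
    (fun u => u ∈ G ∪ G.image α)]
  congr 1
  · congr 1
    ext x; simp
  · congr 1
    ext x
    simp only [Finset.mem_filter, Finset.mem_univ, true_and, Finset.mem_union, Finset.mem_image]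
    constructor
    · intro h
      refine ⟨fun h' => h (Or.inl h'), fun h' => h (Or.inr ⟨α x, h', hα.invol x⟩)⟩
    · rintro ⟨h3, h4⟩ (h | ⟨y, hy, rfl⟩)
      · exact h3 h
      · rw [hα.invol] at h4; exact h4 hy

section mult

variable {h : MvPolynomial V R} (hh : ∀ v, v ∉ G → α v ∉ G → X v * h ∈ Jid Δ a 4)

include hh

theorem off_G (hα : IsCS Δ α) (hN : Nrm Δ α a G v0 n τ) {k : V} (hk : k ∈ G) :
    (X k - X (α k)) * h ∈ Jid Δ a 4 := by
  have h1 := Ideal.mul_mem_right h _ (hN.t_mem k hk)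
  unfold lin at h1
  rw [sum_split hS hα] at h1
  have h2 : ∑ k' ∈ G, C (τ k k') * X k' = (X k : MvPolynomial V R) := by
    rw [Finset.sum_eq_single k]
    · rw [hN.t_G k hk k hk, if_pos rfl, C_1, one_mul]
    · intro b hb hbk
      rw [hN.t_G k hk b hb, if_neg (Ne.symm hbk), C_0, zero_mul]
    · intro h; exact absurd hk h
  have h3 : ∑ k' ∈ G, C (τ k (α k')) * X (α k') = (- X (α k) : MvPolynomial V R) := by
    rw [Finset.sum_eq_single k]
    · rw [hN.t_anti k hk, hN.t_G k hk k hk, if_pos rfl, C_neg, C_1]; ring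
    · intro b hb hbk
      rw [hN.t_anti k hk, hN.t_G k hk b hb, if_neg (Ne.symm hbk), neg_zero, C_0, zero_mul]
    · intro h; exact absurd hk h
  rw [h2, h3, add_mul, Finset.sum_mul] at h1
  have h4 : ∑ u ∈ univ.filter (fun u => u ∉ G ∧ α u ∉ G), C (τ k u) * X u * h ∈ Jid Δ a 4 := by
    apply Ideal.sum_mem
    intro u hu
    obtain ⟨_, h5, h6⟩ := Finset.mem_filter.mp hu
    rw [mul_assoc]
    exact Ideal.mul_mem_left _ _ (hh u h5 h6)
  have h5 := Ideal.sub_mem _ h1 h4
  convert h5 using 1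
  ring

theorem sq_G (hα : IsCS Δ α) (hN : Nrm Δ α a G v0 n τ) {k : V} (hk : k ∈ G) :
    X k * X k * h ∈ Jid Δ a 4 := by
  have h1 := Ideal.mul_mem_left _ (X k) (off_G hS hh hα hN hk)
  have h2 := Ideal.mul_mem_right h _ (pair_mem (R := R) (a := a) hα k)
  have h3 := Ideal.add_mem _ h1 h2
  convert h3 using 1
  ring

theorem linmul (hα : IsCS Δ α) (hN : Nrm Δ α a G v0 n τ) (b : V → R) :
    lin b * h - (∑ k ∈ G, C (b k + b (α k)) * X k) * h ∈ Jid Δ a 4 := by
  have h1 : lin b * h - (∑ k ∈ G, C (b k + b (α k)) * X k) * h =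
      ∑ u ∈ univ.filter (fun u => u ∉ G ∧ α u ∉ G), C (b u) * (X u * h) -
      ∑ k ∈ G, C (b (α k)) * ((X k - X (α k)) * h) := by
    unfold lin
    rw [sum_split hS hα, ← sub_mul]
    have h2 : ∑ k ∈ G, C (b k + b (α k)) * X k =
        ∑ k ∈ G, C (b k) * X k + ∑ k ∈ G, (C (b (α k)) * X k : MvPolynomial V R) := by
      rw [← Finset.sum_add_distrib]
      apply Finset.sum_congr rfl
      intro k _
      rw [C_add]; ring
    have h3 : ∑ k ∈ G, C (b (α k)) * ((X k - X (α k)) * h) =
        (∑ k ∈ G, C (b (α k)) * X k - ∑ k ∈ G, C (b (α k)) * X (α k)) * h := by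
      rw [← Finset.sum_sub_distrib, Finset.sum_mul]
      apply Finset.sum_congr rfl
      intro k _
      ring
    have h4 : ∑ u ∈ univ.filter (fun u => u ∉ G ∧ α u ∉ G), C (b u) * (X u * h) =
        (∑ u ∈ univ.filter (fun u => u ∉ G ∧ α u ∉ G), C (b u) * X u) * h := by
      rw [Finset.sum_mul]
      apply Finset.sum_congr rfl
      intro k _
      ring
    rw [h2, h3, h4]
    ring
  rw [h1]
  apply Ideal.sub_mem
  · apply Ideal.sum_mem
    intro u hu
    obtain ⟨_, h5, h6⟩ := Finset.mem_filter.mp hu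
    exact Ideal.mul_mem_left _ _ (hh u h5 h6)
  · apply Ideal.sum_mem
    intro k hk
    exact Ideal.mul_mem_left _ _ (off_G hS hh hα hN hk)

theorem offmul (hα : IsCS Δ α) (hN : Nrm Δ α a G v0 n τ) {b : V → R}
    (hb : ∀ k ∈ G, b k + b (α k) = 0) : lin b * h ∈ Jid Δ a 4 := by
  have h1 := linmul hS hh hα hN b
  have h2 : ∑ k ∈ G, C (b k + b (α k)) * X k = (0 : MvPolynomial V R) := by
    apply Finset.sum_eq_zero
    intro k hk
    rw [hb k hk, C_0, zero_mul]
  rw [h2, zero_mul, sub_zero] at h1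
  exact h1

/-- replacing the vertices of a flip of `G` by those of `G` -/
theorem swap (hα : IsCS Δ α) (hN : Nrm Δ α a G v0 n τ) (F : Finset V)
    (hF : ∀ v ∈ F, v ∈ G ∨ α v ∈ G) :
    (∏ v ∈ F, X v) * h - (∏ v ∈ F, X (if v ∈ G then v else α v)) * h ∈ Jid Δ a 4 := by
  induction F using Finset.induction_on with
  | empty => simp
  | insert v F hv ih =>
    have ih := ih (fun u hu => hF u (Finset.mem_insert_of_mem hu))
    rw [Finset.prod_insert hv, Finset.prod_insert hv]
    by_cases hvG : v ∈ G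
    · rw [if_pos hvG]
      have := Ideal.mul_mem_left _ (X v) ih
      convert this using 1
      ring
    · rw [if_neg hvG]
      have h1 : α v ∈ G := (hF v (Finset.mem_insert_self _ _)).resolve_left hvG
      have h2 := off_G hS hh hα hN h1
      rw [hα.invol] at h2
      have h3 := Ideal.mul_mem_left _ (∏ v ∈ F, X v) h2
      have h4 := Ideal.mul_mem_left _ (X (α v)) ih
      have h5 := Ideal.sub_mem _ h4 h3
      convert h5 using 1
      ring

theorem swap_lift (hα : IsCS Δ α) (hN : Nrm Δ α a G v0 n τ) {F : Finset V} (hFΔ : F ∈ Δ)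
    (hF3 : F.card = 3) (hF : ∀ v ∈ F, v ∈ G ∨ α v ∈ G) :
    xm R F * h - xm R G * h ∈ Jid Δ a 4 := by
  have h1 := swap hS hh hα hN F hF
  have hinj : ∀ x ∈ F, ∀ y ∈ F, (if x ∈ G then x else α x) = (if y ∈ G then y else α y) →
      x = y := by
    intro x hx y hy hxy
    split_ifs at hxy with h2 h3 h3
    · exact hxy
    · rw [hxy] at hx
      exact absurd hx (hα.no_pair F hFΔ y hy)
    · rw [← hxy] at hy
      exact absurd hy (hα.no_pair F hFΔ x hx)
    · exact α.injective hxy
  have h2 : F.image (fun v => if v ∈ G then v else α v) = G := by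
    apply Finset.eq_of_subset_of_card_le
    · intro x hx
      obtain ⟨y, hy, rfl⟩ := Finset.mem_image.mp hx
      split_ifs with h3
      · exact h3
      · exact (hF y hy).resolve_left h3
    · rw [Finset.card_image_of_injOn (fun x hx y hy => hinj x hx y hy), hF3, hS.oct.card]
  have h3 : ∏ v ∈ F, (X (if v ∈ G then v else α v) : MvPolynomial V R) =
      ∏ x ∈ F.image (fun v => if v ∈ G then v else α v), X x := by
    rw [Finset.prod_image hinj]
  rw [h2] at h3
  rw [h3] at h1
  exact h1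

end mult

theorem xmG_XO (hα : IsCS Δ α) (hN : Nrm Δ α a G v0 n τ) :
    xm R G * XO I n - xm R (insert v0 G) ∈ Jid Δ a 4 := by
  have hv0 : v0 ∉ G := (hS.off v0 hS.apex).1
  have h1 : xm R G * XO I n - xm R (insert v0 G) =
      ∑ v ∈ I.erase v0, C (n v) * xm R (insert v G) := by
    unfold XO
    rw [← Finset.add_sum_erase I _ hS.apex, hN.n_v0, C_1, one_mul, mul_add]
    have h2 : xm R G * X v0 = xm R (insert v0 G) := by
      unfold xm
      rw [Finset.prod_insert hv0, mul_comm]
    rw [h2, add_sub_cancel_left, Finset.mul_sum]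
    apply Finset.sum_congr rfl
    intro v hv
    have hvG : v ∉ G := (hS.off v (Finset.mem_of_mem_erase hv)).1
    unfold xm
    rw [Finset.prod_insert hvG]
    ring
  rw [h1]
  apply Ideal.sum_mem
  intro v hv
  apply Ideal.mul_mem_left
  apply sr_le_J 4
  apply xm_mem_sr
  intro h3
  exact Finset.ne_of_mem_erase hv (hS.uniq v (Finset.mem_of_mem_erase hv) h3)

end side

end CSLef.Oct
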