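import Mathlib
import Pool.Agent.Work.MP_38c61c_al.Oct.XO

/-!
Products of three linear forms with the linear form of one side of the octahedron.
-/

namespace CSLef.Oct

open MvPolynomial Finset CSLef

/-- the polarized product of three linear forms on the octahedron -/
def Phi {R : Type*} [CommRing R] (p0 p1 p2 q0 q1 q2 r0 r1 r2 : R) : R :=
  p0 * (q1 * r2 + q2 * r1) + p1 * (q0 * r2 + q2 * r0) + p2 * (q0 * r1 + q1 * r0)

theorem phi_expand {Q : Type*} [CommRing Q] {t0 t1 t2 x p0 p1 p2 q0 q1 q2 r0 r1 r2 : Q}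
    (h0 : t0 * t0 * x = 0) (h1 : t1 * t1 * x = 0) (h2 : t2 * t2 * x = 0) :
    (p0 * t0 + p1 * t1 + p2 * t2) * ((q0 * t0 + q1 * t1 + q2 * t2) *
      ((r0 * t0 + r1 * t1 + r2 * t2) * x)) = Phi p0 p1 p2 q0 q1 q2 r0 r1 r2 * (t0 * t1 * t2 * x) := by
  unfold Phi
  linear_combination
    (p0 * q0 * r0 * t0 + (p0 * q0 * r1 + p0 * q1 * r0 + p1 * q0 * r0) * t1 +
      (p0 * q0 * r2 + p0 * q2 * r0 + p2 * q0 * r0) * t2) * h0 +
    (p1 * q1 * r1 * t1 + (p1 * q1 * r0 + p1 * q0 * r1 + p0 * q1 * r1) * t0 +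
      (p1 * q1 * r2 + p1 * q2 * r1 + p2 * q1 * r1) * t2) * h1 +
    (p2 * q2 * r2 * t2 + (p2 * q2 * r0 + p2 * q0 * r2 + p0 * q2 * r2) * t0 +
      (p2 * q2 * r1 + p2 * q1 * r2 + p1 * q2 * r2) * t1) * h2

variable {V : Type} [Fintype V] [DecidableEq V] {R : Type*} [CommRing R]
  {Δ : Finset (Finset V)} {α : Equiv.Perm V} {a : ℕ → V → R} {G I : Finset V} {v0 : V}
  {n : V → R} {τ : V → V → R}

theorem cubic (hS : Side Δ α G I v0) (hα : IsCS Δ α) (hN : Nrm Δ α a G v0 n τ)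
    {k0 k1 k2 : V} (h01 : k0 ≠ k1) (h02 : k0 ≠ k2) (h12 : k1 ≠ k2) (hG : G = {k0, k1, k2})
    (b b' b'' : V → R) :
    lin b * lin b' * lin b'' * XO I n -
      C (Phi (b k0 + b (α k0)) (b k1 + b (α k1)) (b k2 + b (α k2))
        (b' k0 + b' (α k0)) (b' k1 + b' (α k1)) (b' k2 + b' (α k2))
        (b'' k0 + b'' (α k0)) (b'' k1 + b'' (α k1)) (b'' k2 + b'' (α k2))) *
      xm R (insert v0 G) ∈ Jid Δ a 4 := by
  set J := Jid Δ a 4 with hJ
  have hx : ∀ v, v ∉ G → α v ∉ G → X v * XO I n ∈ J := fun v hv hv' => XO_off hS hα hN hv hv'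
  have hx' : ∀ g : MvPolynomial V R, ∀ v, v ∉ G → α v ∉ G → X v * (g * XO I n) ∈ J := by
    intro g v hv hv'
    rw [mul_left_comm]
    exact Ideal.mul_mem_left _ _ (hx v hv hv')
  have hsum : ∀ c : V → R, (∑ k ∈ G, C (c k + c (α k)) * X k : MvPolynomial V R) =
      C (c k0 + c (α k0)) * X k0 + C (c k1 + c (α k1)) * X k1 + C (c k2 + c (α k2)) * X k2 := by
    intro c
    rw [hG, Finset.sum_insert (by simp [h01, h02]), Finset.sum_insert (by simp [h12]),
      Finset.sum_singleton]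
    ring
  have hprod : xm R G = (X k0 * X k1 * X k2 : MvPolynomial V R) := by
    unfold xm
    rw [hG, Finset.prod_insert (by simp [h01, h02]), Finset.prod_insert (by simp [h12]),
      Finset.prod_singleton]
    ring
  have m0 : k0 ∈ G := by rw [hG]; simp
  have m1 : k1 ∈ G := by rw [hG]; simp
  have m2 : k2 ∈ G := by rw [hG]; simp
  have hq : ∀ f g : MvPolynomial V R, f - g ∈ J → Ideal.Quotient.mk J f = Ideal.Quotient.mk J g :=
    fun f g h => (Ideal.Quotient.mk_eq_mk_iff_sub_mem _ _).mpr h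
  have hz : ∀ f : MvPolynomial V R, f ∈ J → Ideal.Quotient.mk J f = 0 :=
    fun f h => Ideal.Quotient.eq_zero_iff_mem.mpr h
  rw [← Ideal.Quotient.mk_eq_mk_iff_sub_mem]
  -- stepwise replacement
  have e3 := hq _ _ (linmul hS (hx' 1) hα hN b'')
  have e2 := hq _ _ (linmul hS (hx' ((∑ k ∈ G, C (b'' k + b'' (α k)) * X k) * 1)) hα hN b')
  have e1 := hq _ _ (linmul hS (hx' ((∑ k ∈ G, C (b' k + b' (α k)) * X k) *
    ((∑ k ∈ G, C (b'' k + b'' (α k)) * X k) * 1))) hα hN b)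
  have s0 := hz _ (sq_G hS (hx' 1) hα hN m0)
  have s1 := hz _ (sq_G hS (hx' 1) hα hN m1)
  have s2 := hz _ (sq_G hS (hx' 1) hα hN m2)
  have hfin := hq _ _ (xmG_XO hS hα hN)
  rw [hprod] at hfin
  rw [hsum] at e3
  rw [hsum b', hsum b''] at e2
  rw [hsum b, hsum b', hsum b''] at e1
  simp only [map_mul, map_add, map_one, mul_one, one_mul] at e1 e2 e3 s0 s1 s2 hfin
  rw [map_mul, map_mul, map_mul, map_mul, ← hfin]
  have key := phi_expand (x := Ideal.Quotient.mk J (XO I n))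
    (p0 := Ideal.Quotient.mk J (C (b k0)) + Ideal.Quotient.mk J (C (b (α k0))))
    (p1 := Ideal.Quotient.mk J (C (b k1)) + Ideal.Quotient.mk J (C (b (α k1))))
    (p2 := Ideal.Quotient.mk J (C (b k2)) + Ideal.Quotient.mk J (C (b (α k2))))
    (q0 := Ideal.Quotient.mk J (C (b' k0)) + Ideal.Quotient.mk J (C (b' (α k0))))
    (q1 := Ideal.Quotient.mk J (C (b' k1)) + Ideal.Quotient.mk J (C (b' (α k1))))
    (q2 := Ideal.Quotient.mk J (C (b' k2)) + Ideal.Quotient.mk J (C (b' (α k2))))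
    (r0 := Ideal.Quotient.mk J (C (b'' k0)) + Ideal.Quotient.mk J (C (b'' (α k0))))
    (r1 := Ideal.Quotient.mk J (C (b'' k1)) + Ideal.Quotient.mk J (C (b'' (α k1))))
    (r2 := Ideal.Quotient.mk J (C (b'' k2)) + Ideal.Quotient.mk J (C (b'' (α k2)))) s0 s1 s2
  have hPhi : Ideal.Quotient.mk J (C (Phi (b k0 + b (α k0)) (b k1 + b (α k1)) (b k2 + b (α k2))
        (b' k0 + b' (α k0)) (b' k1 + b' (α k1)) (b' k2 + b' (α k2))
        (b'' k0 + b'' (α k0)) (b'' k1 + b'' (α k1)) (b'' k2 + b'' (α k2)))) =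
      Phi (Ideal.Quotient.mk J (C (b k0)) + Ideal.Quotient.mk J (C (b (α k0))))
        (Ideal.Quotient.mk J (C (b k1)) + Ideal.Quotient.mk J (C (b (α k1))))
        (Ideal.Quotient.mk J (C (b k2)) + Ideal.Quotient.mk J (C (b (α k2))))
        (Ideal.Quotient.mk J (C (b' k0)) + Ideal.Quotient.mk J (C (b' (α k0))))
        (Ideal.Quotient.mk J (C (b' k1)) + Ideal.Quotient.mk J (C (b' (α k1))))
        (Ideal.Quotient.mk J (C (b' k2)) + Ideal.Quotient.mk J (C (b' (α k2))))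
        (Ideal.Quotient.mk J (C (b'' k0)) + Ideal.Quotient.mk J (C (b'' (α k0))))
        (Ideal.Quotient.mk J (C (b'' k1)) + Ideal.Quotient.mk J (C (b'' (α k1))))
        (Ideal.Quotient.mk J (C (b'' k2)) + Ideal.Quotient.mk J (C (b'' (α k2)))) := by
    unfold Phi
    simp only [map_mul, map_add]
  rw [hPhi]
  linear_combination e1 + Ideal.Quotient.mk J (lin b) * e2 +
    Ideal.Quotient.mk J (lin b) * Ideal.Quotient.mk J (lin b') * e3 + key

end CSLef.Oct
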