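import Mathlib
import Pool.Agent.Work.MP_38c61c_al.Oct.Cubic
import Pool.Agent.Work.MP_38c61c_al.Oct.Ann2

/-!
The local argument on one side of an invariant octahedron.
-/

namespace CSLef.Oct

open MvPolynomial Finset CSLef

variable {V : Type} [Fintype V] [DecidableEq V]

section general

variable {R : Type*} [CommRing R] {Δ : Finset (Finset V)} {α : Equiv.Perm V} {a : ℕ → V → R}
  {G I : Finset V} {v0 : V} {n : V → R} {τ : V → V → R}

theorem coeff_lin (b : V → R) (k : V) : coeff (Finsupp.single k 1) (lin b) = b k := by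
  unfold lin
  rw [coeff_sum, Finset.sum_eq_single k]
  · rw [coeff_C_mul, coeff_X, if_pos rfl, mul_one]
  · intro v _ hv
    rw [coeff_C_mul, coeff_X, if_neg, mul_zero]
    intro h
    exact hv (Finsupp.single_left_injective one_ne_zero h)
  · intro h; exact absurd (Finset.mem_univ k) h

theorem hom_one {y : MvPolynomial V R} (hy : y.IsHomogeneous 1) :
    y = lin (fun v => coeff (Finsupp.single v 1) y) := by
  obtain ⟨g, hg, hyg⟩ := hom_split (i := 0) hy
  have h1 : y = lin (fun v => coeff 0 (g v)) := by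
    rw [hyg]
    unfold lin
    apply Finset.sum_congr rfl
    intro v _
    have hC : g v = C (coeff 0 (g v)) :=
      totalDegree_eq_zero_iff_eq_C.mp (Nat.le_zero.mp (hg v).totalDegree_le)
    conv_lhs => rw [hC]
    rw [mul_comm]
  have h2 : (fun v => coeff (Finsupp.single v 1) y) = (fun v => coeff 0 (g v)) := by
    funext v
    rw [h1, coeff_lin]
  rw [h2]
  exact h1

theorem lin_hom (b : V → R) : (lin b).IsHomogeneous 1 := by
  unfold lin
  apply IsHomogeneous.sum
  intro v _
  rw [show 1 = 0 + 1 from rfl]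
  exact (isHomogeneous_C V _).mul (isHomogeneous_X R v)

theorem coeff_XO {k : V} (hk : k ∉ I) : coeff (Finsupp.single k 1) (XO I n) = 0 := by
  unfold XO
  rw [coeff_sum]
  apply Finset.sum_eq_zero
  intro v hv
  rw [coeff_C_mul, coeff_X, if_neg, mul_zero]
  intro h
  exact hk (Finsupp.single_left_injective one_ne_zero h ▸ hv)

/-- linear forms in the ideal have opposite coefficients at `k` and `α k` -/
theorem coeff_J (hdown : ∀ F ∈ Δ, ∀ G, G ⊆ F → G ∈ Δ) (ha : ∀ l v, a l (α v) = - a l v)
    {e : MvPolynomial V R} (he : e ∈ Jid Δ a 4) (heh : e.IsHomogeneous 1) {k : V}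
    (hk : {k} ∈ Δ) (hk' : {α k} ∈ Δ) :
    coeff (Finsupp.single k 1) e + coeff (Finsupp.single (α k) 1) e = 0 := by
  obtain ⟨g, hg, hsr⟩ := mem_J_hom hdown (n := 0) he heh
  have hC : ∀ l, g l = C (coeff 0 (g l)) := fun l =>
    totalDegree_eq_zero_iff_eq_C.mp (Nat.le_zero.mp (hg l).totalDegree_le)
  rw [mem_sr_iff hdown] at hsr
  have h1 : ∀ v : V, {v} ∈ Δ → coeff (Finsupp.single v 1) e =
      ∑ l ∈ range 4, a l v * coeff 0 (g l) := by
    intro v hv
    have h2 : coeff (Finsupp.single v 1) (e - ∑ l ∈ range 4, lin (a l) * g l) = 0 := by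
      by_contra hne
      apply hsr _ hne
      rw [Finsupp.support_single_ne_zero v one_ne_zero]
      exact hv
    rw [coeff_sub, sub_eq_zero] at h2
    rw [h2, coeff_sum]
    apply Finset.sum_congr rfl
    intro l _
    conv_lhs => rw [hC l]
    rw [mul_comm, coeff_C_mul, coeff_lin, mul_comm]
  rw [h1 k hk, h1 (α k) hk', ← Finset.sum_add_distrib]
  apply Finset.sum_eq_zero
  intro l _
  rw [ha]
  ring

theorem Nrm.map {F : Type*} [Field F] (π : R →+* F) (hdown : ∀ F ∈ Δ, ∀ G, G ⊆ F → G ∈ Δ)
    (hN : Nrm Δ α a G v0 n τ) :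
    Nrm Δ α (fun l v => π (a l v)) G v0 (fun v => π (n v)) (fun k v => π (τ k v)) where
  n_mem := by
    have := map_J π hdown hN.n_mem
    rwa [map_lin] at this
  n_anti := fun v => by rw [hN.n_anti, map_neg]
  n_G := fun k hk => by rw [hN.n_G k hk, map_zero]
  n_v0 := by rw [hN.n_v0, map_one]
  t_mem := fun k hk => by
    have := map_J π hdown (hN.t_mem k hk)
    rwa [map_lin] at this
  t_anti := fun k hk v => by rw [hN.t_anti k hk, map_neg]
  t_G := fun k hk k' hk' => by
    rw [hN.t_G k hk k' hk']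
    split_ifs
    · rw [map_one]
    · rw [map_zero]

theorem map_XO {F : Type*} [Field F] (π : R →+* F) :
    MvPolynomial.map π (XO I n) = XO I (fun v => π (n v)) := by
  unfold XO
  rw [map_sum]
  apply Finset.sum_congr rfl
  intro v _
  rw [map_mul, map_C, map_X]

end general

section char2

variable {F : Type*} [Field F] [CharP F 2] {Δ : Finset (Finset V)} {α : Equiv.Perm V}
  {VP : Finset V} {p : ℕ → V ⊕ Bool → F} {D : ℕ → V ⊕ Bool → Derivation ℤ F F}
  {μ : ℕ → F} {c : V → F} {Dm : ℕ → Derivation ℤ F F} {Dc : V → Derivation ℤ F F}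
  {G I : Finset V} {v0 : V} {n : V → F} {τ : V → V → F}

theorem ann_XO (S : Setup Δ 4 α VP p D μ c Dm Dc) (hS : Side Δ α G I v0)
    (hN : Nrm Δ α (rows p) G v0 n τ) {h : MvPolynomial V F} (hh1 : h.IsHomogeneous 1)
    (hh : ∀ v, v ∉ G → α v ∉ G → X v * h ∈ Jid Δ (rows p) 4) :
    ∃ r : F, h - C r * XO I n ∈ Jid Δ (rows p) 4 := by
  have hd : 1 ≤ 4 := by norm_num
  have hα := S.cs
  have hv0 : v0 ∉ G := (hS.off v0 hS.apex).1
  have hE4 : (insert v0 G).card = 4 := by rw [Finset.card_insert_of_notMem hv0, hS.oct.card]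
  have hGh : (xm F G).IsHomogeneous 3 := hS.oct.card ▸ xm_hom G
  have hx : ∀ v, v ∉ G → α v ∉ G → X v * XO I n ∈ Jid Δ (rows p) 4 :=
    fun v hv hv' => XO_off hS hα hN hv hv'
  have hXO1 : (XO I n : MvPolynomial V F).IsHomogeneous 1 := XO_hom
  have hN1 : piF Δ 4 p D (xm F G * XO I n) ≠ 0 := by
    have h1 := piF_J S hd (xmG_XO hS hα hN) (by
      apply IsHomogeneous.sub
      · exact hGh.mul hXO1
      · exact hE4 ▸ xm_hom (insert v0 G))
    rw [map_sub, sub_eq_zero] at h1
    rw [h1]
    exact piF_facet_ne S.cols S.cs hS.facet hE4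
  refine ⟨piF Δ 4 p D (xm F G * h) / piF Δ 4 p D (xm F G * XO I n), ?_⟩
  set r := piF Δ 4 p D (xm F G * h) / piF Δ 4 p D (xm F G * XO I n) with hr
  have hdiff : (h - C r * XO I n).IsHomogeneous 1 := by
    apply hh1.sub
    have := (isHomogeneous_C V r).mul hXO1
    rwa [zero_add] at this
  apply nondeg_pi S hd (i := 1) (k := 3) (by norm_num) hdiff
  intro F' hF' hcard
  have hF'h : (xm F F').IsHomogeneous 3 := hcard ▸ xm_hom F'
  by_cases hlift : ∀ v ∈ F', v ∈ G ∨ α v ∈ G
  · have e1 := piF_J S hd (swap_lift hS hh hα hN hF' hcard hlift) (by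
      apply IsHomogeneous.sub
      · exact hF'h.mul hh1
      · exact hGh.mul hh1)
    have e2 := piF_J S hd (swap_lift hS hx hα hN hF' hcard hlift) (by
      apply IsHomogeneous.sub
      · exact hF'h.mul hXO1
      · exact hGh.mul hXO1)
    rw [map_sub, sub_eq_zero] at e1 e2
    have e3 : xm F F' * (h - C r * XO I n) = xm F F' * h - C r * (xm F F' * XO I n) := by ring
    rw [e3, map_sub, ← smul_eq_C_mul, map_smul, e1, e2, hr, smul_eq_mul, div_mul_cancel₀ _ hN1,
      sub_self]
  · push Not at hlift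
    obtain ⟨v, hv, hv1, hv2⟩ := hlift
    apply piF_J S hd
    · have e4 : xm F F' = X v * ∏ u ∈ F'.erase v, X u := by
        unfold xm
        rw [Finset.mul_prod_erase _ _ hv]
      have e5 : xm F F' * (h - C r * XO I n) = (∏ u ∈ F'.erase v, X u) *
          (X v * h - C r * (X v * XO I n)) := by rw [e4]; ring
      rw [e5]
      apply Ideal.mul_mem_left
      exact Ideal.sub_mem _ (hh v hv1 hv2) (Ideal.mul_mem_left _ _ (hx v hv1 hv2))
    · exact hF'h.mul hdiff

end char2

section local_

variable {R F : Type} [CommRing R] [IsDomain R] [IsLocalRing R] [IsNoetherianRing R]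
  [Field F] [CharP F 2] {π : R →+* F} {Δ : Finset (Finset V)} {a : ℕ → V → R}
  {α : Equiv.Perm V} {VP : Finset V} {p : ℕ → V ⊕ Bool → F}
  {D : ℕ → V ⊕ Bool → Derivation ℤ F F}
  {μ : ℕ → F} {c : V → F} {Dm : ℕ → Derivation ℤ F F} {Dc : V → Derivation ℤ F F}
  {G I : Finset V} {v0 : V} {n : V → R} {τ : V → V → R}

theorem map_welR (hp : ∀ l v, p l (Sum.inl v) = π (a l v)) {μR : ℕ → R} {cR : V → R}
    (hμ : ∀ l, μ l = π (μR l)) (hc : ∀ v, c v = π (cR v)) (d : ℕ) :
    MvPolynomial.map π (welA d α VP a μR cR) = wel d α VP p μ c := by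
  unfold welA wel
  rw [map_add, map_sum, map_sum]
  congr 1
  · apply Finset.sum_congr rfl
    intro l _
    rw [map_mul, map_C, hμ, map_sum]
    congr 1
    apply Finset.sum_congr rfl
    intro v _
    rw [map_mul, map_C, map_X, hp]
  · apply Finset.sum_congr rfl
    intro v _
    rw [map_mul, map_C, hc]
    unfold yy
    rw [map_add, map_X, map_X]

theorem dmap_welA {μR : ℕ → R} {cR : V → R} (δ : V → Derivation ℤ R R)
    (δa : ∀ v l u, δ v (a l u) = 0) (δμ : ∀ v l, δ v (μR l) = 0)
    (δc : ∀ v ∈ VP, ∀ v', δ v (cR v') = if v = v' then 1 else 0) {u : V} (hu : u ∈ VP) (d : ℕ) :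
    dmap (δ u) (welA d α VP a μR cR) = yy R α u := by
  unfold welA
  rw [dmap_add, dmap_sum, dmap_sum]
  have h3 : ∀ l ∈ range d, dmap (δ u) (C (μR l) *
      (∑ v ∈ VP, C (a l v) * X v : MvPolynomial V R)) = 0 := by
    intro l _
    rw [dmap_mul, dmap_C, δμ, dmap_sum, map_zero, zero_mul, zero_add]
    rw [Finset.sum_eq_zero, mul_zero]
    intro v _
    rw [dmap_mul, dmap_C, δa, dmap_X, map_zero, zero_mul, mul_zero, add_zero]
  rw [Finset.sum_eq_zero h3, zero_add]
  have h4 : ∀ v ∈ VP, dmap (δ u) (C (cR v) * yy R α v : MvPolynomial V R) =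
      if u = v then yy R α v else 0 := by
    intro v _
    have h5 : dmap (δ u) (yy R α v) = 0 := by
      unfold yy
      rw [dmap_add, dmap_X, dmap_X, add_zero]
    rw [dmap_mul, dmap_C, δc u hu, h5, mul_zero, add_zero]
    split_ifs <;> simp
  rw [Finset.sum_congr rfl h4, Finset.sum_ite_eq VP u, if_pos hu]

/-- a linear form on one side, killed by `w ^ 2` there, is a multiple of `XO` -/
theorem local_main (H : LocHyp π Δ 4 a) (S : Setup Δ 4 α VP p D μ c Dm Dc)
    (hp : ∀ l v, p l (Sum.inl v) = π (a l v)) {μR : ℕ → R} {cR : V → R}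
    (hμ : ∀ l, μ l = π (μR l)) (hc : ∀ v, c v = π (cR v))
    (ha : ∀ l v, a l (α v) = - a l v) (δ : V → Derivation ℤ R R)
    (δa : ∀ v l u, δ v (a l u) = 0) (δμ : ∀ v l, δ v (μR l) = 0)
    (δc : ∀ v ∈ VP, ∀ v', δ v (cR v') = if v = v' then 1 else 0)
    (hS : Side Δ α G I v0) (hN : Nrm Δ α a G v0 n τ)
    {y0 : MvPolynomial V R} (hy0 : y0.IsHomogeneous 1)
    (hu1 : ∀ k ∈ G, coeff (Finsupp.single k 1) y0 + coeff (Finsupp.single (α k) 1) y0 = 0)
    (hu2 : ∀ v ∈ I, X (α v) * y0 ∈ Jid Δ a 4)
    (hu3 : ∀ v ∈ I, (welA 4 α VP a μR cR) ^ 2 * (X v * y0) ∈ Jid Δ a 4) :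
    ∃ r : R, y0 - C r * XO I n ∈ Jid Δ a 4 := by
  have hd : 1 ≤ 4 := by norm_num
  have hα := S.cs
  set w := welA 4 α VP a μR cR with hwdef
  set J := Jid Δ a 4 with hJ
  have hrows : (fun l v => π (a l v)) = rows p := by
    funext l v; exact (hp l v).symm
  have hmapw : MvPolynomial.map π w = wel 4 α VP p μ c := map_welR hp hμ hc 4
  have hT : ∀ f : MvPolynomial V R, (2 : R) • f ∈ J → f ∈ J := (tors_reg π H 4 le_rfl).1
  have hNF : Nrm Δ α (rows p) G v0 (fun v => π (n v)) (fun k v => π (τ k v)) := by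
    have := hN.map π H.hs.down
    rwa [hrows] at this
  have hXoff : ∀ v, v ∉ G → α v ∉ G → X v * XO I n ∈ J := fun v hv hv' => XO_off hS hα hN hv hv'
  have hkΔ : ∀ k ∈ G, {k} ∈ Δ ∧ {α k} ∈ Δ := by
    intro k hk
    have h1 : {k} ∈ Δ := H.hs.down _ (G_mem hS) _ (Finset.singleton_subset_iff.mpr hk)
    have h2 := hα.map_mem _ h1
    rw [Finset.image_singleton] at h2
    exact ⟨h1, h2⟩
  let N : Submodule R (MvPolynomial V R) := J.restrictScalars R ⊔ Submodule.span R {XO I n}
  let U : Submodule R (MvPolynomial V R) :=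
    { carrier := {x | x.IsHomogeneous 1 ∧
        (∀ k ∈ G, coeff (Finsupp.single k 1) x + coeff (Finsupp.single (α k) 1) x = 0) ∧
        (∀ v ∈ I, X (α v) * x ∈ J) ∧ (∀ v ∈ I, w ^ 2 * (X v * x) ∈ J)}
      add_mem' := by
        rintro x y ⟨h1, h2, h3, h4⟩ ⟨k1, k2, k3, k4⟩
        refine ⟨h1.add k1, ?_, ?_, ?_⟩
        · intro k hk
          rw [coeff_add, coeff_add]
          linear_combination h2 k hk + k2 k hk
        · intro v hv
          rw [mul_add]
          exact Ideal.add_mem _ (h3 v hv) (k3 v hv)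
        · intro v hv
          rw [mul_add, mul_add]
          exact Ideal.add_mem _ (h4 v hv) (k4 v hv)
      zero_mem' := by
        refine ⟨isHomogeneous_zero _ _ _, ?_, ?_, ?_⟩
        · intro k _; rw [coeff_zero, coeff_zero, add_zero]
        · intro v _; rw [mul_zero]; exact Ideal.zero_mem _
        · intro v _; rw [mul_zero, mul_zero]; exact Ideal.zero_mem _
      smul_mem' := by
        rintro r x ⟨h1, h2, h3, h4⟩
        refine ⟨?_, ?_, ?_, ?_⟩
        · rw [smul_eq_C_mul]
          have := (isHomogeneous_C V r).mul h1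
          rwa [zero_add] at this
        · intro k hk
          rw [smul_eq_C_mul, coeff_C_mul, coeff_C_mul, ← mul_add, h2 k hk, mul_zero]
        · intro v hv
          rw [smul_eq_C_mul, mul_left_comm]
          exact Ideal.mul_mem_left _ _ (h3 v hv)
        · intro v hv
          rw [smul_eq_C_mul, mul_left_comm (X v), mul_left_comm (w ^ 2)]
          exact Ideal.mul_mem_left _ _ (h4 v hv) }
  have hUN : U ≤ N := by
    apply nak H.max (n := 1) N U (fun x hx => (mem_homogeneousSubmodule 1 x).mpr hx.1)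
    rintro y ⟨hy, u1, u2, u3⟩
    -- multiples of `w ^ 2 * y`
    have hoff1 : ∀ v, v ∉ G → α v ∉ G → X v * (w ^ 2 * y) ∈ J := by
      intro v hv hv'
      rcases off_cases hS hα hv hv' with h | h | ⟨u, hu, rfl⟩
      · exact Ideal.mul_mem_right _ _ (ghost h)
      · have := u3 v h
        convert this using 1
        ring
      · have := Ideal.mul_mem_left _ (w ^ 2) (u2 u hu)
        convert this using 1
        ring
    have hL1 : ∀ z : MvPolynomial V R, z.IsHomogeneous 1 →
        (∀ k ∈ G, coeff (Finsupp.single k 1) z + coeff (Finsupp.single (α k) 1) z = 0) →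
        z * (w ^ 2 * y) ∈ J := by
      intro z hz hz2
      rw [hom_one hz]
      exact offmul hS hoff1 hα hN hz2
    have hyy : y * (w ^ 2 * y) ∈ J := hL1 y hy u1
    have hder : ∀ u, yy R α u * (w * y ^ 2) ∈ J := by
      have key : ∀ u ∈ VP, yy R α u * (w * y ^ 2) ∈ J := by
        intro u hu
        have h1 := dmap_J H.hs.down (δ u) (δa u) hyy
        have h2 := hL1 (dmap (δ u) y) (dmap_hom (δ u) hy) (by
          intro k hk
          rw [coeff_dmap, coeff_dmap, ← map_add, u1 k hk, map_zero])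
        have e1 : dmap (δ u) (y * (w ^ 2 * y)) =
            2 * (yy R α u * (w * y ^ 2)) + 2 * (dmap (δ u) y * (w ^ 2 * y)) := by
          rw [dmap_mul, dmap_mul, pow_two, dmap_mul, dmap_welA δ δa δμ δc hu 4]
          ring
        rw [e1] at h1
        have h3 := Ideal.sub_mem _ h1 (Ideal.mul_mem_left _ 2 h2)
        rw [add_sub_cancel_right] at h3
        apply hT
        rw [smul_eq_C_mul]
        have e2 : (C (2 : R) : MvPolynomial V R) = 2 := by rw [map_ofNat]
        rw [e2]
        exact h3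
      intro u
      by_cases hu : u ∈ VP
      · exact key u hu
      · have h1 : α u ∈ VP := by
          by_contra h'
          exact hu ((S.vp u).mpr h')
        have h2 := key _ h1
        have h3 : yy R α (α u) = yy R α u := by
          unfold yy; rw [S.cs.invol]; ring
        rwa [h3] at h2
    have hoff2 : ∀ v, v ∉ G → α v ∉ G → X v * (w * y ^ 2) ∈ J := by
      intro v hv hv'
      rcases off_cases hS hα hv hv' with h | h | ⟨u, hu, rfl⟩
      · exact Ideal.mul_mem_right _ _ (ghost h)
      · have h1 := hder v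
        have h2 := Ideal.mul_mem_left _ (w * y) (u2 v h)
        have h3 := Ideal.sub_mem _ h1 h2
        convert h3 using 1
        unfold yy
        ring
      · have := Ideal.mul_mem_left _ (w * y) (u2 u hu)
        convert this using 1
        ring
    have hon : ∀ k ∈ G, X k * (w * y ^ 2) ∈ J ∧ X (α k) * (w * y ^ 2) ∈ J := by
      intro k hk
      have h1 := off_G hS hoff2 hα hN hk
      have h2 := hder k
      have h3 : X k * (w * y ^ 2) ∈ J := by
        apply hT
        have h4 := Ideal.add_mem _ h1 h2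
        convert h4 using 1
        rw [smul_eq_C_mul, map_ofNat]
        unfold yy
        ring
      refine ⟨h3, ?_⟩
      have h4 := Ideal.sub_mem _ h2 h3
      convert h4 using 1
      unfold yy
      ring
    have hall : ∀ v, w * X v * y ^ 2 ∈ J := by
      intro v
      have h1 : X v * (w * y ^ 2) ∈ J := by
        by_cases h1 : v ∈ G
        · exact (hon v h1).1
        by_cases h2 : α v ∈ G
        · have := (hon _ h2).2
          rwa [hα.invol] at this
        exact hoff2 v h1 h2
      convert h1 using 1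
      ring
    -- reduction modulo 2
    have hyπ : (MvPolynomial.map π y).IsHomogeneous 1 := hy.map π
    have hann : ∀ u, yy F α u * MvPolynomial.map π y ∈ Jid Δ (rows p) 4 := by
      apply claimAnn2 S _ hyπ
      intro v
      have h1 := map_J π H.hs.down (hall v)
      rw [map_mul, map_mul, map_pow, map_X, hmapw, hrows] at h1
      apply piF_J S hd h1
      have h2 := ((wel_hom (d := 4) (α := α) (VP := VP) (p := p) (μ := μ) (c := c)).mul
        (isHomogeneous_X F v)).mul (hyπ.pow 2)
      convert h2 using 1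
    have hoffF : ∀ v, v ∉ G → α v ∉ G → X v * MvPolynomial.map π y ∈ Jid Δ (rows p) 4 := by
      have h2F : ∀ u ∈ I, X (α u) * MvPolynomial.map π y ∈ Jid Δ (rows p) 4 := by
        intro u hu
        have := map_J π H.hs.down (u2 u hu)
        rwa [map_mul, map_X, hrows] at this
      intro v hv hv'
      rcases off_cases hS hα hv hv' with h | h | ⟨u, hu, rfl⟩
      · exact Ideal.mul_mem_right _ _ (ghost h)
      · have h3 := Ideal.sub_mem _ (hann v) (h2F v h)
        convert h3 using 1
        unfold yy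
        ring
      · exact h2F u hu
    obtain ⟨rF, hrF⟩ := ann_XO S hS hNF hyπ hoffF
    obtain ⟨r, rfl⟩ := H.surj rF
    have hred : MvPolynomial.map π (y - C r * XO I n) ∈ Jid Δ (fun l v => π (a l v)) 4 := by
      rw [map_sub, map_mul, map_C, map_XO, hrows]
      exact hrF
    have hdh : (y - C r * XO I n).IsHomogeneous 1 := by
      apply hy.sub
      have := (isHomogeneous_C V r).mul (XO_hom (I := I) (n := n))
      rwa [zero_add] at this
    obtain ⟨e, he, heh, y', hy', hyy'⟩ := lift_J_hom π H.hs.down H.surj H.ker hdh hred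
    have hyeq : y = (e + r • XO I n) + (2 : R) • y' := by
      rw [smul_eq_C_mul]
      linear_combination hyy'
    have hI : ∀ v ∈ I, v ∉ G ∧ α v ∉ G := hS.off
    have hkI : ∀ k ∈ G, k ∉ I ∧ α k ∉ I := by
      intro k hk
      refine ⟨fun h => (hI k h).1 hk, fun h => ?_⟩
      have := (hI _ h).2
      rw [hα.invol] at this
      exact this hk
    refine ⟨e + r • XO I n, ?_, y', ⟨hy', ?_, ?_, ?_⟩, hyeq⟩
    · exact Submodule.add_mem_sup he (Submodule.smul_mem _ _ (Submodule.mem_span_singleton_self _))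
    · intro k hk
      have h1 := coeff_J H.hs.down ha he heh (hkΔ k hk).1 (hkΔ k hk).2
      have h2 := u1 k hk
      rw [hyeq] at h2
      simp only [smul_eq_C_mul, coeff_add, coeff_C_mul, coeff_XO (hkI k hk).1,
        coeff_XO (hkI k hk).2] at h2
      have h3 : (2 : R) * (coeff (Finsupp.single k 1) y' + coeff (Finsupp.single (α k) 1) y') = 0 := by
        linear_combination h2 - h1
      exact (mul_eq_zero.mp h3).resolve_left H.two_ne
    · intro v hv
      apply hT
      have h1 := Ideal.sub_mem _ (u2 v hv) (Ideal.mul_mem_left _ (X (α v)) he)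
      have h2 := Ideal.mul_mem_left _ (C r) (hXoff (α v) (hI v hv).2 (by
        rw [hα.invol]; exact (hI v hv).1))
      have h3 := Ideal.sub_mem _ h1 h2
      convert h3 using 1
      rw [hyeq]
      simp only [smul_eq_C_mul]
      ring
    · intro v hv
      apply hT
      have h1 := Ideal.sub_mem _ (u3 v hv) (Ideal.mul_mem_left _ (w ^ 2 * X v) he)
      have h2 := Ideal.mul_mem_left _ (C r * w ^ 2) (hXoff v (hI v hv).1 (hI v hv).2)
      have h3 := Ideal.sub_mem _ h1 h2
      convert h3 using 1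
      rw [hyeq]
      simp only [smul_eq_C_mul]
      ring
  obtain ⟨j, hj, z, hz, hjz⟩ := Submodule.mem_sup.mp (hUN ⟨hy0, hu1, hu2, hu3⟩ : y0 ∈ N)
  obtain ⟨r, rfl⟩ := Submodule.mem_span_singleton.mp hz
  refine ⟨r, ?_⟩
  rw [← hjz, smul_eq_C_mul, add_sub_cancel_right]
  exact hj

end local_

end CSLef.Oct
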