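import Mathlib
import Pool.Agent.Work.MP_38c61c_al.Oct.Local

/-!
Injectivity of the Lefschetz maps over the local ring for `d = 4` with an invariant octahedron.
-/

namespace CSLef.Oct

open MvPolynomial Finset CSLef

variable {V : Type} [Fintype V] [DecidableEq V]

section general

variable {R : Type*} [CommRing R] {Δ : Finset (Finset V)} {α : Equiv.Perm V} {a : ℕ → V → R}
  {G I : Finset V} {v0 : V} {n : V → R} {τ : V → V → R}

/-- splitting a linear form that vanishes on the octahedron -/
theorem lin_split (hS : Side Δ α G I v0) (hα : IsCS Δ α) (b : V → R)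
    (hb : ∀ k ∈ G, b k = 0 ∧ b (α k) = 0) :
    lin b - XO I b - ∑ v ∈ I, C (b (α v)) * X (α v) ∈ Jid Δ a 4 := by
  have h1 : ∑ v ∈ I, (C (b (α v)) * X (α v) : MvPolynomial V R) =
      ∑ u, if u ∈ I.image α then C (b u) * X u else 0 := by
    rw [Finset.sum_ite_mem, Finset.univ_inter,
      Finset.sum_image (fun a _ b _ hab => α.injective hab)]
  have h2 : XO I b = ∑ u, if u ∈ I then (C (b u) * X u : MvPolynomial V R) else 0 := by
    rw [Finset.sum_ite_mem, Finset.univ_inter]
    rfl
  rw [h1, h2]
  unfold lin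
  rw [← Finset.sum_sub_distrib, ← Finset.sum_sub_distrib]
  apply Ideal.sum_mem
  intro u _
  by_cases h3 : {u} ∈ Δ
  · have hnot : ∀ v ∈ I, u = α v → u ∉ I := by
      intro v hv huv hu
      exact hS.sep _ h3 u hu (by simp) v hv (by simp [huv])
    by_cases h4 : u ∈ G
    · have e1 : u ∉ I := fun h => (hS.off u h).1 h4
      have e2 : u ∉ I.image α := by
        intro h
        obtain ⟨y, hy, rfl⟩ := Finset.mem_image.mp h
        exact (hS.off y hy).2 h4
      rw [if_neg e1, if_neg e2, (hb u h4).1, C_0, zero_mul, sub_zero, sub_zero]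
      exact Ideal.zero_mem _
    by_cases h5 : α u ∈ G
    · have e1 : u ∉ I := fun h => (hS.off u h).2 h5
      have e2 : u ∉ I.image α := by
        intro h
        obtain ⟨y, hy, rfl⟩ := Finset.mem_image.mp h
        rw [hα.invol] at h5
        exact (hS.off y hy).1 h5
      have e3 := (hb _ h5).2
      rw [hα.invol] at e3
      rw [if_neg e1, if_neg e2, e3, C_0, zero_mul, sub_zero, sub_zero]
      exact Ideal.zero_mem _
    by_cases h6 : u ∈ I
    · have e2 : u ∉ I.image α := by
        intro h
        obtain ⟨y, hy, huy⟩ := Finset.mem_image.mp h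
        exact hnot y hy huy.symm h6
      rw [if_pos h6, if_neg e2, sub_self, sub_zero]
      exact Ideal.zero_mem _
    · have e2 : u ∈ I.image α := by
        rcases hS.cover u h3 h4 h5 with h | h
        · exact absurd h h6
        · exact Finset.mem_image.mpr ⟨α u, h, hα.invol u⟩
      rw [if_neg h6, if_pos e2, sub_zero, sub_self]
      exact Ideal.zero_mem _
  · have hg : ∀ r : R, (C r * X u : MvPolynomial V R) ∈ Jid Δ a 4 := fun r =>
      Ideal.mul_mem_left _ _ (ghost h3)
    apply Ideal.sub_mem
    · apply Ideal.sub_mem _ (hg _)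
      split_ifs
      · exact hg _
      · exact Ideal.zero_mem _
    · split_ifs
      · exact hg _
      · exact Ideal.zero_mem _

theorem rename_XO (b : V → R) :
    rename α (XO I b) = ∑ v ∈ I, C (b v) * X (α v) := by
  unfold XO
  rw [map_sum]
  apply Finset.sum_congr rfl
  intro v _
  rw [map_mul, rename_C, rename_X]

theorem XO_alpha (hS : Side Δ α G I v0) (hα : IsCS Δ α) (hN : Nrm Δ α a G v0 n τ) :
    XO I n - rename α (XO I n) ∈ Jid Δ a 4 := by
  have h1 := lin_split (a := a) hS hα n (by
    intro k hk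
    refine ⟨hN.n_G k hk, ?_⟩
    rw [hN.n_anti, hN.n_G k hk, neg_zero])
  have h2 : ∑ v ∈ I, (C (n (α v)) * X (α v) : MvPolynomial V R) = - rename α (XO I n) := by
    rw [rename_XO, ← Finset.sum_neg_distrib]
    apply Finset.sum_congr rfl
    intro v _
    rw [hN.n_anti, C_neg]
    ring
  rw [h2] at h1
  have h3 := Ideal.sub_mem _ hN.n_mem h1
  convert h3 using 1
  ring

/-- if all `yy v * f` are in the ideal, so is twice `XO * f` -/
theorem XO_yy (hS : Side Δ α G I v0) (hα : IsCS Δ α) (hN : Nrm Δ α a G v0 n τ)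
    {f : MvPolynomial V R} (hf : ∀ v, yy R α v * f ∈ Jid Δ a 4) :
    2 * (XO I n * f) ∈ Jid Δ a 4 := by
  have h1 := Ideal.mul_mem_right f _ (XO_alpha (a := a) hS hα hN)
  have h2 : (XO I n + rename α (XO I n)) * f ∈ Jid Δ a 4 := by
    have h3 : (XO I n + rename α (XO I n)) * f = ∑ v ∈ I, C (n v) * (yy R α v * f) := by
      rw [rename_XO]
      unfold XO
      rw [← Finset.sum_add_distrib, Finset.sum_mul]
      apply Finset.sum_congr rfl
      intro v _
      unfold yy
      ring
    rw [h3]
    apply Ideal.sum_mem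
    intro v _
    exact Ideal.mul_mem_left _ _ (hf v)
  have h4 := Ideal.add_mem _ h1 h2
  convert h4 using 1
  ring

end general

section local_

variable {R F : Type} [CommRing R] [IsDomain R] [IsLocalRing R] [IsNoetherianRing R]
  [Field F] [CharP F 2] {π : R →+* F} {Δ : Finset (Finset V)} {a : ℕ → V → R}
  {α : Equiv.Perm V} {VP : Finset V} {p : ℕ → V ⊕ Bool → F}
  {D : ℕ → V ⊕ Bool → Derivation ℤ F F}
  {μ : ℕ → F} {c : V → F} {Dm : ℕ → Derivation ℤ F F} {Dc : V → Derivation ℤ F F}
  {G I : Finset V} {v0 : V} {n : V → R} {τ : V → V → R}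

/-- a facet monomial is torsion free -/
theorem top_ne (H : LocHyp π Δ 4 a) (S : Setup Δ 4 α VP p D μ c Dm Dc)
    (hp : ∀ l v, p l (Sum.inl v) = π (a l v)) {E : Finset V} (hE : E ∈ Δ) (hE4 : E.card = 4)
    {r : R} (hr : C r * xm R E ∈ Jid Δ a 4) : r = 0 := by
  by_contra hne
  rw [← smul_eq_C_mul] at hr
  have h1 := map_J π H.hs.down (tors π H hne hr)
  have h2 : MvPolynomial.map π (xm R E) = xm F E := by
    unfold xm
    rw [map_prod]
    apply Finset.prod_congr rfl
    intro v _
    rw [map_X]
  have hrows : (fun l v => π (a l v)) = rows p := by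
    funext l v; exact (hp l v).symm
  rw [h2, hrows] at h1
  exact piF_facet_ne S.cols S.cs hE hE4 (piF_J S (by norm_num) h1 (hE4 ▸ xm_hom E))

theorem inj_oct (H : LocHyp π Δ 4 a) (S : Setup Δ 4 α VP p D μ c Dm Dc)
    (hp : ∀ l v, p l (Sum.inl v) = π (a l v)) {μR : ℕ → R} {cR : V → R}
    (hμ : ∀ l, μ l = π (μR l)) (hc : ∀ v, c v = π (cR v))
    (ha : ∀ l v, a l (α v) = - a l v) (δ : V → Derivation ℤ R R)
    (δa : ∀ v l u, δ v (a l u) = 0) (δμ : ∀ v l, δ v (μR l) = 0)
    (δc : ∀ v ∈ VP, ∀ v', δ v (cR v') = if v = v' then 1 else 0)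
    (hchar : ∀ n : ℕ, n ≠ 0 → (n : R) ≠ 0)
    (hreal : ∀ A B C : R, A * A + B * B + C * C = 0 → A = 0 ∧ B = 0 ∧ C = 0)
    (hS : Side Δ α G I v0) (hN : Nrm Δ α a G v0 n τ)
    (hom : ∀ k : V, coeff (Finsupp.single k 1) (welA 4 α VP a μR cR) +
      coeff (Finsupp.single (α k) 1) (welA 4 α VP a μR cR) ≠ 0)
    {i k : ℕ} (hik : i + i + (k + 1) = 4) {x : MvPolynomial V R} (hx : x.IsHomogeneous i)
    (hw : (welA 4 α VP a μR cR) ^ (k + 1) * x ∈ Jid Δ a 4) : x ∈ Jid Δ a 4 := by
  have hα := S.cs
  set w := welA 4 α VP a μR cR with hwdef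
  set J := Jid Δ a 4 with hJ
  have hT : ∀ f : MvPolynomial V R, (2 : R) • f ∈ J → f ∈ J := (tors_reg π H 4 le_rfl).1
  have hT' : ∀ f : MvPolynomial V R, 2 * f ∈ J → f ∈ J := by
    intro f hf
    apply hT
    rw [smul_eq_C_mul, map_ofNat]
    exact hf
  have hdw : ∀ u ∈ VP, dmap (δ u) w = yy R α u := fun u hu => dmap_welA δ δa δμ δc hu 4
  have hwα : rename α w - w ∈ J := rename_welA S.cs.invol S.vp ha μR cR Δ
  have hwh : w.IsHomogeneous 1 := welA_hom VP a μR cR
  have hall : ∀ {f : MvPolynomial V R}, (∀ u ∈ VP, yy R α u * f ∈ J) → ∀ u, yy R α u * f ∈ J := by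
    intro f hf u
    by_cases hu : u ∈ VP
    · exact hf u hu
    · have h1 : α u ∈ VP := by
        by_contra h'
        exact hu ((S.vp u).mpr h')
      have h2 := hf _ h1
      have h3 : yy R α (α u) = yy R α u := by
        unfold yy; rw [S.cs.invol]; ring
      rwa [h3] at h2
  have hv0 : v0 ∉ G := (hS.off v0 hS.apex).1
  have hE4 : (insert v0 G).card = 4 := by rw [Finset.card_insert_of_notMem hv0, hS.oct.card]
  have htop : ∀ r : R, C r * xm R (insert v0 G) ∈ J → r = 0 :=
    fun r hr => top_ne H S hp hS.facet hE4 hr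
  obtain ⟨k0, k1, k2, h01, h02, h12, hG⟩ := Finset.card_eq_three.mp hS.oct.card
  have m0 : k0 ∈ G := by rw [hG]; simp
  have m1 : k1 ∈ G := by rw [hG]; simp
  have m2 : k2 ∈ G := by rw [hG]; simp
  set om : V → R := fun v => coeff (Finsupp.single v 1) w with homdef
  have hwlin : w = lin om := hom_one hwh
  have hcub := fun b b' b'' => cubic (a := a) hS hα hN h01 h02 h12 hG b b' b''
  have hzero : ∀ b b' b'' : V → R, lin b * lin b' * lin b'' * XO I n ∈ J →
      Phi (b k0 + b (α k0)) (b k1 + b (α k1)) (b k2 + b (α k2))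
        (b' k0 + b' (α k0)) (b' k1 + b' (α k1)) (b' k2 + b' (α k2))
        (b'' k0 + b'' (α k0)) (b'' k1 + b'' (α k1)) (b'' k2 + b'' (α k2)) = 0 := by
    intro b b' b'' h
    apply htop
    have h1 := Ideal.sub_mem _ h (hcub b b' b'')
    rwa [sub_sub_cancel] at h1
  have hne0 : om k0 + om (α k0) ≠ 0 := hom k0
  have hne1 : om k1 + om (α k1) ≠ 0 := hom k1
  have hne2 : om k2 + om (α k2) ≠ 0 := hom k2
  set A0 := om k0 + om (α k0) with hA0
  set A1 := om k1 + om (α k1) with hA1
  set A2 := om k2 + om (α k2) with hA2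
  have hcase : (i = 0 ∧ k = 3) ∨ (i = 1 ∧ k = 1) := by omega
  rcases hcase with ⟨rfl, rfl⟩ | ⟨rfl, rfl⟩
  · -- degree zero
    have hC : x = C (coeff 0 x) :=
      totalDegree_eq_zero_iff_eq_C.mp (Nat.le_zero.mp hx.totalDegree_le)
    by_cases hs : coeff 0 x = 0
    · rw [hC, hs, C_0]; exact Ideal.zero_mem _
    exfalso
    have h1 : (coeff 0 x) • w ^ 4 ∈ J := by
      rw [smul_eq_C_mul, ← hC, mul_comm]
      exact hw
    have h2 := tors π H hs h1
    have h3 : ∀ u, yy R α u * w ^ 3 ∈ J := by
      apply hall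
      intro u hu
      have h4 := dmap_J H.hs.down (δ u) (δa u) h2
      rw [show (4 : ℕ) = 3 + 1 from rfl, dmap_pow, hdw u hu] at h4
      have h5 : ((4 : ℕ) : R) • (yy R α u * w ^ 3) ∈ J := by
        convert h4 using 1
        rw [smul_eq_C_mul, map_natCast]
        push_cast
        ring
      exact tors π H (hchar 4 (by norm_num)) h5
    have h4 := hT' _ (XO_yy hS hα hN h3)
    have h5 := hzero om om om (by
      rw [← hwlin]
      convert h4 using 1
      ring)
    rw [← hA0, ← hA1, ← hA2] at h5
    unfold Phi at h5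
    have h6 : ((6 : ℕ) : R) * (A0 * (A1 * A2)) = 0 := by
      push_cast
      linear_combination h5
    rcases mul_eq_zero.mp h6 with h | h
    · exact hchar 6 (by norm_num) h
    · rcases mul_eq_zero.mp h with h | h
      · exact hne0 h
      · rcases mul_eq_zero.mp h with h | h
        · exact hne1 h
        · exact hne2 h
  · -- degree one
    set xi : V → R := fun v => coeff (Finsupp.single v 1) x with hxi
    have hxlin : x = lin xi := hom_one hx
    have hw2 : w ^ 2 * x ∈ J := hw
    have hder : ∀ u, yy R α u * (w * x ^ 2) ∈ J := by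
      apply hall
      intro u hu
      have h1 := dmap_J H.hs.down (δ u) (δa u) hw2
      rw [dmap_mul, show (2 : ℕ) = 1 + 1 from rfl, dmap_pow, hdw u hu] at h1
      have h2 := Ideal.mul_mem_left _ x h1
      have h3 := Ideal.sub_mem _ h2 (Ideal.mul_mem_right (dmap (δ u) x) _ hw2)
      apply hT'
      convert h3 using 1
      push_cast
      ring
    have h4 := hT' _ (XO_yy hS hα hN hder)
    have e1 := hzero om xi xi (by
      rw [← hwlin, ← hxlin]
      convert h4 using 1
      ring)
    have e2 := hzero om om xi (by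
      rw [← hwlin, ← hxlin]
      have := Ideal.mul_mem_right (XO I n) _ hw2
      convert this using 1
      ring)
    set B0 := xi k0 + xi (α k0) with hB0
    set B1 := xi k1 + xi (α k1) with hB1
    set B2 := xi k2 + xi (α k2) with hB2
    rw [← hA0, ← hA1, ← hA2] at e1 e2
    unfold Phi at e1 e2
    have e1' : A0 * B1 * B2 + A1 * B0 * B2 + A2 * B0 * B1 = 0 := by
      have : (2 : R) * (A0 * B1 * B2 + A1 * B0 * B2 + A2 * B0 * B1) = 0 := by
        linear_combination e1
      exact (mul_eq_zero.mp this).resolve_left H.two_ne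
    have e2' : A0 * A1 * B2 + A0 * A2 * B1 + A1 * A2 * B0 = 0 := by
      have : (2 : R) * (A0 * A1 * B2 + A0 * A2 * B1 + A1 * A2 * B0) = 0 := by
        linear_combination e2
      exact (mul_eq_zero.mp this).resolve_left H.two_ne
    obtain ⟨z0, z1, z2⟩ := hreal (A1 * A2 * B0) (A0 * A2 * B1) (A0 * A1 * B2) (by
      linear_combination (A0 * A1 * B2 + A0 * A2 * B1 + A1 * A2 * B0) * e2' -
        2 * (A0 * A1 * A2) * e1')
    have b0 : B0 = 0 := (mul_eq_zero.mp z0).resolve_left (mul_ne_zero hne1 hne2)
    have b1 : B1 = 0 := (mul_eq_zero.mp z1).resolve_left (mul_ne_zero hne0 hne2)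
    have b2 : B2 = 0 := (mul_eq_zero.mp z2).resolve_left (mul_ne_zero hne0 hne1)
    have hxiG : ∀ k ∈ G, xi k + xi (α k) = 0 := by
      intro k hk
      rw [hG] at hk
      simp only [Finset.mem_insert, Finset.mem_singleton] at hk
      rcases hk with rfl | rfl | rfl
      · exact b0
      · exact b1
      · exact b2
    -- a representative that vanishes on the octahedron
    set eta : V → R := fun v => xi v - ∑ k ∈ G, xi k * τ k v with heta
    have hsub : x - lin eta ∈ J := by
      have h1 : x - lin eta = ∑ k ∈ G, C (xi k) * lin (τ k) := by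
        rw [hxlin]
        unfold lin
        rw [← Finset.sum_sub_distrib]
        simp only [Finset.mul_sum]
        rw [Finset.sum_comm]
        apply Finset.sum_congr rfl
        intro v _
        rw [heta]
        simp only [C_sub, map_sum, C_mul]
        rw [sub_mul, sub_sub_cancel, Finset.sum_mul]
        apply Finset.sum_congr rfl
        intro k _
        ring
      rw [h1]
      apply Ideal.sum_mem
      intro k hk
      exact Ideal.mul_mem_left _ _ (hN.t_mem k hk)
    have hetaG : ∀ k ∈ G, eta k = 0 ∧ eta (α k) = 0 := by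
      intro k hk
      have h1 : ∑ k' ∈ G, xi k' * τ k' k = xi k := by
        rw [Finset.sum_eq_single k]
        · rw [hN.t_G k hk k hk, if_pos rfl, mul_one]
        · intro b hb hbk
          rw [hN.t_G b hb k hk, if_neg hbk, mul_zero]
        · intro h; exact absurd hk h
      have h2 : ∑ k' ∈ G, xi k' * τ k' (α k) = - xi k := by
        rw [← h1, ← Finset.sum_neg_distrib]
        apply Finset.sum_congr rfl
        intro k' hk'
        rw [hN.t_anti k' hk']
        ring
      refine ⟨?_, ?_⟩
      · simp only [heta]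
        rw [h1, sub_self]
      · simp only [heta]
        rw [h2, sub_neg_eq_add, add_comm]
        exact hxiG k hk
    set y1 := XO I eta with hy1
    set y2 := XO I (fun v => eta (α v)) with hy2
    have hy2α : rename α y2 = ∑ v ∈ I, C (eta (α v)) * X (α v) := rename_XO _
    have hsplit : x - y1 - rename α y2 ∈ J := by
      have h1 := lin_split (a := a) hS hα eta hetaG
      rw [← hy2α] at h1
      have h2 := Ideal.add_mem _ hsub h1
      convert h2 using 1
      ring
    have hX1 : ∀ b : V → R, ∀ v ∈ I, X (α v) * XO I b ∈ J := by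
      intro b v hv
      unfold XO
      rw [Finset.mul_sum]
      apply Ideal.sum_mem
      intro u hu
      have := edge0 (R := R) (a := a) hS hu hv
      rw [mul_left_comm, mul_comm (X (α v))]
      exact Ideal.mul_mem_left _ _ this
    have hX2 : ∀ b : V → R, ∀ v ∈ I, X v * rename α (XO I b) ∈ J := by
      intro b v hv
      have := rename_J hα ha (hX1 b v hv)
      rwa [map_mul, rename_X, hα.invol] at this
    have hkI : ∀ k ∈ G, k ∉ I ∧ α k ∉ I := by
      intro k hk
      refine ⟨fun h => (hS.off k h).1 hk, fun h => ?_⟩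
      have := (hS.off _ h).2
      rw [hα.invol] at this
      exact this hk
    have hcoef : ∀ b : V → R, ∀ k ∈ G, coeff (Finsupp.single k 1) (XO I b) +
        coeff (Finsupp.single (α k) 1) (XO I b) = 0 := by
      intro b k hk
      rw [coeff_XO (hkI k hk).1, coeff_XO (hkI k hk).2, add_zero]
    obtain ⟨r1, hr1⟩ := local_main H S hp hμ hc ha δ δa δμ δc hS hN (XO_hom (I := I) (n := eta))
      (hcoef eta) (hX1 eta) (by
        intro v hv
        rw [← hwdef]
        have h1 := Ideal.mul_mem_left _ (X v) hw2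
        have h2 := Ideal.mul_mem_left _ (w ^ 2 * X v) hsplit
        have h3 := Ideal.mul_mem_left _ (w ^ 2) (hX2 (fun v => eta (α v)) v hv)
        rw [← hy2] at h3
        have h4 := Ideal.sub_mem _ (Ideal.sub_mem _ h1 h2) h3
        convert h4 using 1
        rw [← hy1]
        ring)
    obtain ⟨r2, hr2⟩ := local_main H S hp hμ hc ha δ δa δμ δc hS hN
      (XO_hom (I := I) (n := fun v => eta (α v)))
      (hcoef _) (hX1 _) (by
        intro v hv
        rw [← hwdef, ← hy2]
        have h1 := Ideal.mul_mem_left _ (X (α v)) hw2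
        have h2 := Ideal.mul_mem_left _ (w ^ 2 * X (α v)) hsplit
        have h3 := Ideal.mul_mem_left _ (w ^ 2) (hX1 eta v hv)
        rw [← hy1] at h3
        have h4 := Ideal.sub_mem _ (Ideal.sub_mem _ h1 h2) h3
        have h5 : (w ^ 2 * (X (α v) * rename α y2)) ∈ J := by
          convert h4 using 1
          ring
        have h6 := rename_J hα ha h5
        rw [map_mul, map_mul, map_pow, rename_X, hα.invol, rename_rename_inv hα.invol] at h6
        have h7 := Ideal.mul_mem_right ((rename α w + w) * (X v * y2)) _ hwα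
        have h8 := Ideal.sub_mem _ h6 h7
        convert h8 using 1
        ring)
    have hr2' := rename_J hα ha hr2
    rw [map_sub, map_mul, rename_C] at hr2'
    have hXα := XO_alpha (a := a) hS hα hN
    have hxr : x - C (r1 + r2) * XO I n ∈ J := by
      have h1 := Ideal.add_mem _ (Ideal.add_mem _ hsplit hr1) hr2'
      have h2 := Ideal.mul_mem_left _ (C r2) hXα
      have h3 := Ideal.sub_mem _ h1 h2
      convert h3 using 1
      rw [C_add]
      ring
    -- the multiple is zero
    have hmul : lin om * lin om * lin (Pi.single k0 1) * XO I n * C (r1 + r2) ∈ J := by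
      have hl : (lin (Pi.single k0 1) : MvPolynomial V R) = X k0 := by
        unfold lin
        rw [Finset.sum_eq_single k0]
        · rw [Pi.single_eq_same, C_1, one_mul]
        · intro v _ hv
          rw [Pi.single_eq_of_ne hv, C_0, zero_mul]
        · intro h; exact absurd (Finset.mem_univ _) h
      rw [hl, ← hwlin]
      have h1 := Ideal.mul_mem_left _ (X k0) hw2
      have h2 := Ideal.mul_mem_left _ (w ^ 2 * X k0) hxr
      have h3 := Ideal.sub_mem _ h1 h2
      convert h3 using 1
      ring
    have hαne : ∀ k ∈ G, α k ≠ k0 := by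
      intro k hk h
      have := G_pair hS hα hk
      rw [h] at this
      exact this m0
    have hc3 := hcub om om (Pi.single k0 1)
    rw [← hA0, ← hA1, ← hA2, Pi.single_eq_same, Pi.single_eq_of_ne (hαne k0 m0),
      Pi.single_eq_of_ne h01.symm, Pi.single_eq_of_ne (hαne k1 m1),
      Pi.single_eq_of_ne h02.symm, Pi.single_eq_of_ne (hαne k2 m2)] at hc3
    have hr0 : (r1 + r2) * (2 * (A1 * A2)) = 0 := by
      apply htop
      have h1 := Ideal.mul_mem_left _ (C (r1 + r2)) hc3
      have h2 := Ideal.sub_mem _ hmul h1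
      convert h2 using 1
      unfold Phi
      simp only [add_zero, zero_add, mul_zero, mul_one, C_mul, C_add, map_ofNat]
      ring
    have hr : r1 + r2 = 0 := by
      rcases mul_eq_zero.mp hr0 with h | h
      · exact h
      · exfalso
        rcases mul_eq_zero.mp h with h | h
        · exact H.two_ne h
        · exact mul_ne_zero hne1 hne2 h
    rw [hr, C_0, zero_mul, sub_zero] at hxr
    exact hxr

end local_

end CSLef.Oct
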