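import Pool.Agent.Work.MP_38c61c_al.Oct.Defs

/-!
Without invariant octahedron the flips of large faces are affinely independent.
-/

set_option autoImplicit false

namespace CSLef.Oct

open Finset CSLef

namespace NoOct

variable {V : Type} [DecidableEq V]

/-- The boolean form of the combinatorial fact for two points. -/
theorem bool2 : ∀ x0 x1 x2 x3 : Bool,
    Even (x0.toNat + x1.toNat + (x2.toNat + x3.toNat)) →
    Even (x1.toNat + x3.toNat) → Even (x2.toNat + x3.toNat) →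
    0 < x0.toNat + x1.toNat + (x2.toNat + x3.toNat) →
    x0 = true ∧ x1 = true ∧ x2 = true ∧ x3 = true := by
  decide

/-- The boolean form of the combinatorial fact for three points; the bits of the index are
`z, y, x`. -/
theorem bool3 : ∀ x0 x1 x2 x3 x4 x5 x6 x7 : Bool,
    Even ((x0.toNat + x1.toNat + (x2.toNat + x3.toNat)) +
      (x4.toNat + x5.toNat + (x6.toNat + x7.toNat))) →
    Even (x1.toNat + x3.toNat + (x5.toNat + x7.toNat)) →
    Even (x2.toNat + x3.toNat + (x6.toNat + x7.toNat)) →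
    Even (x4.toNat + x5.toNat + (x6.toNat + x7.toNat)) →
    0 < ((x0.toNat + x1.toNat + (x2.toNat + x3.toNat)) +
      (x4.toNat + x5.toNat + (x6.toNat + x7.toNat))) →
    ((x0 || x4) = true ∧ (x1 || x5) = true ∧ (x2 || x6) = true ∧ (x3 || x7) = true) ∨
    ((x0 || x2) = true ∧ (x1 || x3) = true ∧ (x4 || x6) = true ∧ (x5 || x7) = true) ∨
    ((x0 || x1) = true ∧ (x2 || x3) = true ∧ (x4 || x5) = true ∧ (x6 || x7) = true) := by
  decide

theorem card_eq {S : Finset V} {𝓣 : Finset (Finset V)} (h : ∀ T ∈ 𝓣, T ⊆ S)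
    (q : Finset V → Prop) [DecidablePred q] :
    (𝓣.filter q).card = ∑ T ∈ S.powerset, if q T then (decide (T ∈ 𝓣)).toNat else 0 := by
  have h1 : 𝓣.filter q = S.powerset.filter (fun T => q T ∧ T ∈ 𝓣) := by
    ext T
    simp only [Finset.mem_filter, Finset.mem_powerset]
    exact ⟨fun hT => ⟨h T hT.1, hT.2, hT.1⟩, fun hT => ⟨hT.2.2, hT.2.1⟩⟩
  rw [h1, Finset.card_filter]
  refine Finset.sum_congr rfl fun T _ => ?_
  by_cases h2 : q T <;> by_cases h3 : T ∈ 𝓣 <;> simp [h2, h3]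

theorem sum2 {y z : V} (hyz : y ≠ z) (f : Finset V → ℕ) :
    ∑ T ∈ ({y, z} : Finset V).powerset, f T = f ∅ + f {y} + (f {z} + f {y, z}) := by
  have hy : y ∉ ({z} : Finset V) := by simpa using hyz
  have hz : z ∉ (∅ : Finset V) := by simp
  rw [Finset.sum_powerset_insert hy, ← insert_empty_eq z, Finset.sum_powerset_insert hz,
    Finset.sum_powerset_insert hz, Finset.powerset_empty]
  simp only [Finset.sum_singleton, insert_empty_eq]
  ring

theorem sum3 {x y z : V} (hxy : x ≠ y) (hxz : x ≠ z) (hyz : y ≠ z) (f : Finset V → ℕ) :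
    ∑ T ∈ ({x, y, z} : Finset V).powerset, f T = (f ∅ + f {x} + (f {y} + f {x, y})) +
      (f {z} + f {x, z} + (f {y, z} + f {x, y, z})) := by
  have hx : x ∉ ({y, z} : Finset V) := by simp [hxy, hxz]
  rw [Finset.sum_powerset_insert hx, sum2 hyz, sum2 hyz]
  simp only [insert_empty_eq]
  ring

theorem pats {p q : V} {𝓣 : Finset (Finset V)} {P : Finset V → Prop} (hP : ∀ T ∈ 𝓣, P T)
    (h0 : ∃ T ∈ 𝓣, T ∩ {p, q} = ∅) (h1 : ∃ T ∈ 𝓣, T ∩ {p, q} = {p})
    (h2 : ∃ T ∈ 𝓣, T ∩ {p, q} = {q}) (h3 : ∃ T ∈ 𝓣, T ∩ {p, q} = {p, q}) :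
    ∀ T' ⊆ ({p, q} : Finset V), ∃ T, P T ∧ T ∩ {p, q} = T' := by
  intro T' hT'
  have h4 : T' = ∅ ∨ T' = {p} ∨ T' = {q} ∨ T' = {p, q} := by
    by_cases hp : p ∈ T' <;> by_cases hq : q ∈ T'
    · right; right; right
      exact Finset.Subset.antisymm hT' (by
        rw [Finset.insert_subset_iff, Finset.singleton_subset_iff]; exact ⟨hp, hq⟩)
    · right; left
      ext u
      have := @hT' u
      simp only [Finset.mem_insert, Finset.mem_singleton] at this ⊢
      constructor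
      · intro hu
        rcases this hu with h | h
        · exact h
        · exact absurd (h ▸ hu) hq
      · rintro rfl
        exact hp
    · right; right; left
      ext u
      have := @hT' u
      simp only [Finset.mem_insert, Finset.mem_singleton] at this ⊢
      constructor
      · intro hu
        rcases this hu with h | h
        · exact absurd (h ▸ hu) hp
        · exact h
      · rintro rfl
        exact hq
    · left
      ext u
      have := @hT' u
      simp only [Finset.mem_insert, Finset.mem_singleton] at this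
      constructor
      · intro hu
        rcases this hu with h | h
        · exact absurd (h ▸ hu) hp
        · exact absurd (h ▸ hu) hq
      · intro hu
        exact absurd hu (Finset.notMem_empty _)
  rcases h4 with rfl | rfl | rfl | rfl
  · obtain ⟨T, hT, h⟩ := h0
    exact ⟨T, hP T hT, h⟩
  · obtain ⟨T, hT, h⟩ := h1
    exact ⟨T, hP T hT, h⟩
  · obtain ⟨T, hT, h⟩ := h2
    exact ⟨T, hP T hT, h⟩
  · obtain ⟨T, hT, h⟩ := h3
    exact ⟨T, hP T hT, h⟩

theorem or_ex {𝓣 : Finset (Finset V)} {A B R S : Finset V}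
    (h : (decide (A ∈ 𝓣) || decide (B ∈ 𝓣)) = true) (hA : A ∩ S = R) (hB : B ∩ S = R) :
    ∃ T ∈ 𝓣, T ∩ S = R := by
  rw [Bool.or_eq_true, decide_eq_true_eq, decide_eq_true_eq] at h
  rcases h with h | h
  · exact ⟨A, h, hA⟩
  · exact ⟨B, h, hB⟩

theorem ints {x y z : V} (hxy : x ≠ y) (hxz : x ≠ z) (hyz : y ≠ z) :
    (∅ : Finset V) ∩ {x, y} = ∅ ∧ ({z} : Finset V) ∩ {x, y} = ∅ ∧
    ({x} : Finset V) ∩ {x, y} = {x} ∧ ({x, z} : Finset V) ∩ {x, y} = {x} ∧
    ({y} : Finset V) ∩ {x, y} = {y} ∧ ({y, z} : Finset V) ∩ {x, y} = {y} ∧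
    ({x, y} : Finset V) ∩ {x, y} = {x, y} ∧ ({x, y, z} : Finset V) ∩ {x, y} = {x, y} := by
  refine ⟨?_, ?_, ?_, ?_, ?_, ?_, ?_, ?_⟩ <;> (ext u; simp only [Finset.mem_inter,
    Finset.mem_insert, Finset.mem_singleton, Finset.notMem_empty]; grind)

/-- Four patterns on two further vertices give an octahedron. -/
theorem isOct_of_patterns {Δ : Finset (Finset V)} {α : Equiv.Perm V}
    (hdown : ∀ F ∈ Δ, ∀ G, G ⊆ F → G ∈ Δ) (hcs : IsCS Δ α) {G : Finset V} {v p q : V}
    (hv : v ∈ G) (hp : p ∈ G) (hq : q ∈ G) (hvp : v ≠ p) (hvq : v ≠ q) (hpq : p ≠ q)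
    (h : ∀ T' ⊆ ({p, q} : Finset V), ∃ T, v ∉ T ∧ flip α G T ∈ Δ ∧ T ∩ {p, q} = T') :
    IsOct Δ α {v, p, q} := by
  have key : ∀ T ⊆ ({v, p, q} : Finset V), v ∉ T → flip α {v, p, q} T ∈ Δ := by
    intro T hT hvT
    have hT' : T ⊆ ({p, q} : Finset V) := by
      intro x hx
      have := hT hx
      rw [Finset.mem_insert] at this
      rcases this with rfl | h1
      · exact absurd hx hvT
      · exact h1
    obtain ⟨T₀, h1, h2, h3⟩ := h T hT'
    refine hdown _ h2 _ ?_
    unfold flip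
    refine Finset.union_subset_union ?_ (Finset.image_subset_image ?_)
    · intro x hx
      rw [Finset.mem_sdiff] at hx ⊢
      obtain ⟨hx1, hx2⟩ := hx
      rw [Finset.mem_insert, Finset.mem_insert, Finset.mem_singleton] at hx1
      rcases hx1 with rfl | rfl | rfl
      · exact ⟨hv, h1⟩
      · refine ⟨hp, fun hx => hx2 ?_⟩
        rw [← h3, Finset.mem_inter]
        exact ⟨hx, by simp⟩
      · refine ⟨hq, fun hx => hx2 ?_⟩
        rw [← h3, Finset.mem_inter]
        exact ⟨hx, by simp⟩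
    · rw [← h3]
      exact Finset.inter_subset_left
  refine ⟨?_, fun T hT => ?_⟩
  · rw [Finset.card_eq_three]
    exact ⟨v, p, q, hvp, hvq, hpq, rfl⟩
  · by_cases hvT : v ∈ T
    · have h1 := key (({v, p, q} : Finset V) \ T) Finset.sdiff_subset
        (fun h => (Finset.mem_sdiff.1 h).2 hvT)
      have h2 := hcs.map_mem _ h1
      have h3 : (flip α {v, p, q} (({v, p, q} : Finset V) \ T)).image α = flip α {v, p, q} T := by
        unfold flip
        rw [Finset.sdiff_sdiff_eq_self hT, Finset.image_union, Finset.image_image, Finset.union_comm]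
        congr 1
        have : (⇑α ∘ ⇑α) = id := by
          funext x
          exact hcs.invol x
        rw [this, Finset.image_id]
      rwa [h3] at h2
    · exact key T hT hvT

end NoOct

open NoOct in
theorem claimNoOct : ClaimNoOct := by
  intro V _ _ Δ α hdown hcard hcs hno G hG hbig v hv 𝓣 h𝓣 heven hcount
  by_contra hne
  obtain ⟨T₀, hT₀⟩ := Finset.nonempty_iff_ne_empty.2 hne
  have hS : ∀ T ∈ 𝓣, T ⊆ G.erase v := by
    intro T hT x hx
    rw [Finset.mem_erase]
    exact ⟨fun h => (h𝓣 T hT).2.1 (h ▸ hx), (h𝓣 T hT).1 hx⟩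
  have hc := card_eq hS
  have hc0 : 𝓣.card = ∑ T ∈ (G.erase v).powerset, (decide (T ∈ 𝓣)).toNat := by
    have := hc (fun _ => True)
    simpa using this
  have hG4 := hcard G hG
  have hcE : (G.erase v).card = 2 ∨ (G.erase v).card = 3 := by
    rw [Finset.card_erase_of_mem hv]
    omega
  have hmem : ∀ x ∈ G.erase v, x ∈ G ∧ v ≠ x := fun x hx =>
    ⟨Finset.mem_of_mem_erase hx, (Finset.ne_of_mem_erase hx).symm⟩
  have hP : ∀ T ∈ 𝓣, v ∉ T ∧ flip α G T ∈ Δ := fun T hT => (h𝓣 T hT).2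
  have fin : ∀ p q : V, p ∈ G.erase v → q ∈ G.erase v → p ≠ q →
      (∃ T ∈ 𝓣, T ∩ {p, q} = ∅) → (∃ T ∈ 𝓣, T ∩ {p, q} = {p}) →
      (∃ T ∈ 𝓣, T ∩ {p, q} = {q}) → (∃ T ∈ 𝓣, T ∩ {p, q} = {p, q}) → False := by
    intro p q hp hq hpq h0 h1 h2 h3
    refine hno ⟨{v, p, q}, isOct_of_patterns hdown hcs hv (hmem p hp).1 (hmem q hq).1
      (hmem p hp).2 (hmem q hq).2 hpq fun T' hT' => ?_⟩
    obtain ⟨T, hT, h⟩ := pats hP h0 h1 h2 h3 T' hT'
    exact ⟨T, hT.1, hT.2, h⟩
  have hpos : 0 < 𝓣.card := Finset.card_pos.2 ⟨T₀, hT₀⟩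
  rcases hcE with hcE | hcE
  · obtain ⟨y, z, hyz, hE⟩ := Finset.card_eq_two.1 hcE
    have hy : y ∈ G.erase v := by rw [hE]; simp
    have hz : z ∈ G.erase v := by rw [hE]; simp
    have hcy := hcount y (hmem y hy).1
    have hcz := hcount z (hmem z hz).1
    rw [hc, hE, sum2 hyz] at hcy hcz
    rw [hc0, hE, sum2 hyz] at heven
    simp only [Finset.mem_insert, Finset.mem_singleton, Finset.notMem_empty, if_false,
      hyz, hyz.symm, or_false, or_true, if_true, zero_add, add_zero]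
      at hcy hcz
    rw [hc0, hE, sum2 hyz] at hpos
    obtain ⟨h0, h1, h2, h3⟩ := bool2 (decide (∅ ∈ 𝓣)) (decide ({y} ∈ 𝓣)) (decide ({z} ∈ 𝓣))
      (decide ({y, z} ∈ 𝓣)) heven hcy hcz hpos
    rw [decide_eq_true_eq] at h0 h1 h2 h3
    refine fin y z hy hz hyz ⟨_, h0, by simp⟩ ⟨_, h1, ?_⟩ ⟨_, h2, ?_⟩ ⟨_, h3, by simp⟩
    · ext u
      simp only [Finset.mem_inter, Finset.mem_insert, Finset.mem_singleton]
      grind
    · ext u
      simp only [Finset.mem_inter, Finset.mem_insert, Finset.mem_singleton]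
      grind
  · obtain ⟨x, y, z, hxy, hxz, hyz, hE⟩ := Finset.card_eq_three.1 hcE
    have hx : x ∈ G.erase v := by rw [hE]; simp
    have hy : y ∈ G.erase v := by rw [hE]; simp
    have hz : z ∈ G.erase v := by rw [hE]; simp
    have hcx := hcount x (hmem x hx).1
    have hcy := hcount y (hmem y hy).1
    have hcz := hcount z (hmem z hz).1
    rw [hc, hE, sum3 hxy hxz hyz] at hcx hcy hcz
    rw [hc0, hE, sum3 hxy hxz hyz] at heven
    simp only [Finset.mem_insert, Finset.mem_singleton, Finset.notMem_empty, if_false,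
      hyz, hyz.symm, hxy, hxy.symm, hxz, hxz.symm, or_false, or_true, if_true,
      zero_add, add_zero] at hcx hcy hcz
    rw [hc0, hE, sum3 hxy hxz hyz] at hpos
    rcases bool3 (decide (∅ ∈ 𝓣)) (decide ({x} ∈ 𝓣)) (decide ({y} ∈ 𝓣))
      (decide ({x, y} ∈ 𝓣)) (decide ({z} ∈ 𝓣)) (decide ({x, z} ∈ 𝓣))
      (decide ({y, z} ∈ 𝓣)) (decide ({x, y, z} ∈ 𝓣)) heven hcx hcy hcz hpos with h | h | h
    · obtain ⟨h0, h1, h2, h3⟩ := h
      obtain ⟨a0, a1, a2, a3, a4, a5, a6, a7⟩ := ints hxy hxz hyz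
      exact fin x y hx hy hxy (or_ex h0 a0 a1) (or_ex h1 a2 a3) (or_ex h2 a4 a5)
        (or_ex h3 a6 a7)
    · obtain ⟨h0, h1, h2, h3⟩ := h
      obtain ⟨a0, a1, a2, a3, a4, a5, a6, a7⟩ := ints hxz hxy hyz.symm
      rw [Finset.pair_comm z y] at a5
      have e : ({x, y, z} : Finset V) = {x, z, y} := by rw [Finset.pair_comm y z]
      rw [← e] at a7
      exact fin x z hx hz hxz (or_ex h0 a0 a1) (or_ex h1 a2 a3) (or_ex h2 a4 a5)
        (or_ex h3 a6 a7)
    · obtain ⟨h0, h1, h2, h3⟩ := h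
      obtain ⟨a0, a1, a2, a3, a4, a5, a6, a7⟩ := ints hyz hxy.symm hxz.symm
      rw [Finset.pair_comm y x] at a3
      rw [Finset.pair_comm z x] at a5
      have e : ({x, y, z} : Finset V) = {y, z, x} := by
        ext u
        simp only [Finset.mem_insert, Finset.mem_singleton]
        tauto
      rw [← e] at a7
      exact fin y z hy hz hyz (or_ex h0 a0 a1) (or_ex h1 a2 a3) (or_ex h2 a4 a5)
        (or_ex h3 a6 a7)

end CSLef.Oct
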