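import Mathlib
import Pool.Agent.Work.MP_38c61c_al.Oct.Defs

/-!
Normalized linear forms over a local ring.
-/

namespace CSLef.Oct

open MvPolynomial Finset CSLef

theorem nrm_lin_sum {V : Type} [Fintype V] {R : Type*} [CommRing R]
    {n : ℕ} (c : Fin n → R) (a : ℕ → V → R) :
    lin (fun u => ∑ l : Fin n, c l * a l u) = ∑ l : Fin n, C (c l) * lin (a l) := by
  unfold lin
  simp only [map_sum, map_mul, Finset.sum_mul, Finset.mul_sum]
  rw [Finset.sum_comm]
  simp only [mul_assoc]

theorem claimNrm : ClaimNrm := by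
  intro V _ _ R F _ _ _ _ π Δ α a G v0 hπ hInd hanti hG hv0 hface
  classical
  have hE : (insert v0 G).card = 4 := by rw [Finset.card_insert_of_notMem hv0, hG]
  obtain ⟨q, hq, -⟩ := hInd _ hface
  rw [hE] at hq
  set e : ↥(insert v0 G) ≃ Fin 4 := Finset.equivFinOfCardEq hE with he
  set M : Matrix (Fin 4) (Fin 4) R := Matrix.of fun l i => a l (e.symm i : V) with hM
  set Q : Matrix (Fin 4) (Fin 4) F := Matrix.of fun i l => q (e.symm i : V) l with hQ
  have hQM : Q * M.map π = 1 := by
    ext i j
    rw [Matrix.mul_apply, Matrix.one_apply]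
    have h1 := hq (e.symm j : V) (e.symm j).2 (e.symm i : V) (e.symm i).2
    rw [Finset.sum_range] at h1
    have h2 : ((e.symm j : V) = (e.symm i : V)) ↔ i = j := by
      rw [Subtype.coe_inj, e.symm.injective.eq_iff, eq_comm]
    simp only [h2] at h1
    exact h1
  have hdet : IsUnit M.det := by
    by_contra hcon
    have h1 := hπ _ hcon
    have h2 := congrArg Matrix.det hQM
    rw [Matrix.det_mul, Matrix.det_one] at h2
    have h3 : (M.map π).det = π M.det := (RingHom.map_det π M).symm
    rw [h3, h1, mul_zero] at h2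
    exact zero_ne_one h2
  have hinv : M⁻¹ * M = 1 := Matrix.nonsing_inv_mul M hdet
  set row : Fin 4 → V → R := fun i u => ∑ l : Fin 4, M⁻¹ i l * a l u with hrow
  have hmem : ∀ i, lin (row i) ∈ Jid Δ a 4 := by
    intro i
    have h1 : lin (row i) = ∑ l : Fin 4, C (M⁻¹ i l) * lin (a l) :=
      nrm_lin_sum (fun l => M⁻¹ i l) a
    rw [h1]
    exact Ideal.sum_mem _ fun l _ => Ideal.mul_mem_left _ _ (lin_mem_J l.2)
  have hant : ∀ i v, row i (α v) = - row i v := by
    intro i v
    simp only [hrow, hanti, mul_neg, Finset.sum_neg_distrib]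
  have hval : ∀ i (u : V) (hu : u ∈ insert v0 G), row i u = if i = e ⟨u, hu⟩ then 1 else 0 := by
    intro i u hu
    have h1 := congrFun (congrFun hinv i) (e ⟨u, hu⟩)
    rw [Matrix.mul_apply, Matrix.one_apply] at h1
    rw [← h1]
    apply Finset.sum_congr rfl
    intro l _
    rw [hM, Matrix.of_apply, Equiv.symm_apply_apply]
  have hmG : ∀ k ∈ G, k ∈ insert v0 G := fun k hk => Finset.mem_insert_of_mem hk
  have hm0 : v0 ∈ insert v0 G := Finset.mem_insert_self _ _
  refine ⟨row (e ⟨v0, hm0⟩), fun k => if hk : k ∈ insert v0 G then row (e ⟨k, hk⟩) else 0,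
    ?_⟩
  refine
    { n_mem := hmem _
      n_anti := hant _
      n_G := ?_
      n_v0 := ?_
      t_mem := ?_
      t_anti := ?_
      t_G := ?_ }
  · intro k hk
    rw [hval _ k (hmG k hk), if_neg]
    intro h1
    have h2 := congrArg Subtype.val (e.injective h1)
    exact hv0 (by rw [show v0 = k from h2]; exact hk)
  · rw [hval _ v0 hm0, if_pos rfl]
  · intro k hk
    simp only [hmG k hk, dif_pos]
    exact hmem _
  · intro k hk v
    simp only [hmG k hk, dif_pos]
    exact hant _ _
  · intro k hk k' hk'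
    simp only [hmG k hk, dif_pos]
    rw [hval _ k' (hmG k' hk')]
    by_cases h : k = k'
    · subst h
      simp
    · rw [if_neg h, if_neg]
      intro h1
      exact h (congrArg Subtype.val (e.injective h1))

end CSLef.Oct
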