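import Pool.Agent.Work.MP_38c61c_al.Oct.Defs

/-!
Parity: no invariant chain of facets has the invariant octahedron as its boundary.
-/

namespace CSLef.Oct

open Finset CSLef

section Par

variable {V : Type} [Fintype V] [DecidableEq V]

theorem par_two : ∀ x : ZMod 2, x + x = 0 := by decide

theorem par_eq : ∀ x y : ZMod 2, x + y = 0 → x = y := by decide

/-- sums of symmetric functions with vanishing diagonal -/
theorem par_symm (f : V → V → ZMod 2) (hs : ∀ u v, f u v = f v u) (hd : ∀ v, f v v = 0) :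
    ∑ v, ∑ u, f v u = 0 := by
  rw [← Finset.sum_product']
  refine Finset.sum_involution (fun p _ => (p.2, p.1)) ?_ ?_ ?_ ?_
  · intro p _
    rw [hs p.2 p.1]
    exact par_two _
  · intro p _ hne heq
    apply hne
    have h1 : p.2 = p.1 := congrArg Prod.fst heq
    rw [h1]
    exact hd _
  · intro p _
    simp
  · intro p _
    rfl

theorem par_bd_add (Δ : Finset (Finset V)) (c d : Finset V → ZMod 2) (H : Finset V) :
    bd Δ (fun F => c F + d F) H = bd Δ c H + bd Δ d H := by
  simp only [bd]
  rw [← Finset.sum_add_distrib]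

theorem par_bd_congr (Δ : Finset (Finset V)) (c d : Finset V → ZMod 2) (H : Finset V)
    (h : ∀ F ∈ Δ, F.card = H.card + 1 → c F = d F) : bd Δ c H = bd Δ d H := by
  simp only [bd]
  refine Finset.sum_congr rfl ?_
  intro v hv
  rw [Finset.mem_filter] at hv
  exact h _ hv.2.2 (Finset.card_insert_of_notMem hv.2.1)

theorem par_bd_bd (Δ : Finset (Finset V)) (hdown : ∀ F ∈ Δ, ∀ G, G ⊆ F → G ∈ Δ)
    (c : Finset V → ZMod 2) (H : Finset V) : bd Δ (bd Δ c) H = 0 := by
  have h1 : bd Δ (bd Δ c) H = ∑ v, ∑ u, (if v ∉ H ∧ u ∉ H ∧ u ≠ v ∧ insert u (insert v H) ∈ Δ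
      then c (insert u (insert v H)) else 0) := by
    simp only [bd]
    rw [Finset.sum_filter]
    refine Finset.sum_congr rfl ?_
    intro v _
    rw [Finset.sum_filter]
    split_ifs with hv
    · refine Finset.sum_congr rfl ?_
      intro u _
      refine if_congr ?_ rfl rfl
      rw [Finset.mem_insert, not_or]
      constructor
      · rintro ⟨⟨h1, h2⟩, h3⟩
        exact ⟨hv.1, h2, h1, h3⟩
      · rintro ⟨_, h2, h1, h3⟩
        exact ⟨⟨h1, h2⟩, h3⟩
    · symm
      refine Finset.sum_eq_zero ?_
      intro u _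
      rw [if_neg]
      rintro ⟨h1, _, _, h3⟩
      exact hv ⟨h1, hdown _ h3 _ (Finset.subset_insert _ _)⟩
  rw [h1]
  refine par_symm _ ?_ ?_
  · intro u v
    rw [Finset.insert_comm]
    refine if_congr ?_ rfl rfl
    constructor
    · rintro ⟨h1, h2, h3, h4⟩
      exact ⟨h2, h1, h3.symm, h4⟩
    · rintro ⟨h1, h2, h3, h4⟩
      exact ⟨h2, h1, h3.symm, h4⟩
  · intro v
    rw [if_neg]
    rintro ⟨_, _, h, _⟩
    exact h rfl

variable {Δ : Finset (Finset V)} {α : Equiv.Perm V}

theorem par_im_im (hα : IsCS Δ α) (F : Finset V) : (F.image α).image α = F := by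
  rw [Finset.image_image]
  have : (α : V → V) ∘ α = id := funext hα.invol
  rw [this, Finset.image_id]

theorem par_mem_im (hα : IsCS Δ α) (F : Finset V) (x : V) : x ∈ F.image α ↔ α x ∈ F := by
  rw [Finset.mem_image]
  constructor
  · rintro ⟨y, hy, rfl⟩
    rwa [hα.invol]
  · intro h
    exact ⟨α x, h, hα.invol x⟩

theorem par_im_mem (hα : IsCS Δ α) (F : Finset V) : F.image α ∈ Δ ↔ F ∈ Δ := by
  constructor
  · intro h
    have := hα.map_mem _ h
    rwa [par_im_im hα] at this
  · exact hα.map_mem F

theorem par_bd_im (hα : IsCS Δ α) (c : Finset V → ZMod 2) (H : Finset V) :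
    bd Δ (fun F => c (F.image α)) H = bd Δ c (H.image α) := by
  simp only [bd]
  rw [Finset.sum_filter, Finset.sum_filter]
  refine Fintype.sum_equiv α _ _ ?_
  intro v
  have h1 : insert (α v) (H.image α) = (insert v H).image α := by
    rw [Finset.image_insert]
  rw [h1]
  refine if_congr ?_ rfl rfl
  rw [par_im_mem hα, par_mem_im hα, hα.invol]

/-- halving of an invariant chain -/
theorem par_half (hα : IsCS Δ α) (r : ℕ) (hr : 1 ≤ r) (t : Finset V → ZMod 2)
    (ht : ∀ F ∈ Δ, F.card = r → t (F.image α) = t F) :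
    ∃ s : Finset V → ZMod 2, ∀ F ∈ Δ, F.card = r → t F = s F + s (F.image α) := by
  obtain ⟨n, ⟨e⟩⟩ := Finite.exists_equiv_fin (Finset V)
  refine ⟨fun F => if e F < e (F.image α) then t F else 0, ?_⟩
  intro F hF hFr
  have hne : F ≠ F.image α := by
    intro h
    obtain ⟨v, hv⟩ : F.Nonempty := by
      rw [← Finset.card_pos]; omega
    have h1 : v ∈ F.image α := h ▸ hv
    rw [par_mem_im hα] at h1
    exact hα.no_pair F hF v hv h1
  have hne' : e F ≠ e (F.image α) := fun h => hne (e.injective h)
  simp only [par_im_im hα]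
  rcases lt_or_gt_of_ne hne' with h | h
  · rw [if_pos h, if_neg (not_lt.2 h.le), add_zero]
  · rw [if_neg (not_lt.2 h.le), if_pos h, zero_add, ht F hF hFr]

/-- `F` is a flip of `K` -/
def Fl (α : Equiv.Perm V) (K F : Finset V) : Prop :=
  (∀ x ∈ F, x ∈ K ∨ α x ∈ K) ∧ ∀ k ∈ K, (k ∈ F ↔ α k ∉ F)

theorem fl_iff (hα : IsCS Δ α) {K : Finset V} (hK : K ∈ Δ) (F : Finset V) :
    (∃ T ⊆ K, F = flip α K T) ↔ Fl α K F := by
  constructor
  · rintro ⟨T, hT, rfl⟩
    have hm : ∀ x, x ∈ flip α K T ↔ (x ∈ K ∧ x ∉ T) ∨ α x ∈ T := by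
      intro x
      rw [flip, Finset.mem_union, Finset.mem_sdiff, par_mem_im hα]
    refine ⟨?_, ?_⟩
    · intro x hx
      rcases (hm x).1 hx with h | h
      · exact Or.inl h.1
      · exact Or.inr (hT h)
    · intro k hk
      have h1 : α k ∉ K := hα.no_pair K hK k hk
      rw [hm, hm, hα.invol]
      constructor
      · rintro (h | h)
        · rintro (h' | h')
          · exact h1 h'.1
          · exact h.2 h'
        · exact absurd (hT h) h1
      · intro h
        left
        refine ⟨hk, fun h' => h (Or.inr h')⟩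
  · rintro ⟨h1, h2⟩
    refine ⟨K.filter (fun k => α k ∈ F), Finset.filter_subset _ _, ?_⟩
    ext x
    rw [flip, Finset.mem_union, Finset.mem_sdiff, par_mem_im hα, Finset.mem_filter,
      Finset.mem_filter, hα.invol]
    constructor
    · intro hx
      rcases h1 x hx with h | h
      · left
        exact ⟨h, fun h' => (h2 x h).1 hx h'.2⟩
      · exact Or.inr ⟨h, hx⟩
    · rintro (⟨h, h'⟩ | h)
      · rw [h2 x h]
        intro h3
        exact h' ⟨h, h3⟩
      · exact h.2

theorem Fl.im (hα : IsCS Δ α) {K F : Finset V} (h : Fl α K F) : Fl α K (F.image α) := by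
  refine ⟨?_, ?_⟩
  · intro x hx
    rw [par_mem_im hα] at hx
    rcases h.1 _ hx with h' | h'
    · exact Or.inr h'
    · rw [hα.invol] at h'
      exact Or.inl h'
  · intro k hk
    rw [par_mem_im hα, par_mem_im hα, hα.invol, h.2 k hk, not_not]

theorem fl_im_iff (hα : IsCS Δ α) {K F : Finset V} : Fl α K (F.image α) ↔ Fl α K F := by
  constructor
  · intro h
    have := h.im hα
    rwa [par_im_im hα] at this
  · exact fun h => h.im hα

theorem fl_insert (hα : IsCS Δ α) {K : Finset V} (hK : K ∈ Δ) {k : V} (hk : k ∈ K)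
    {H : Finset V} (hH : k ∉ H) : Fl α K (insert k H) ↔ Fl α (K.erase k) H := by
  have hpair : ∀ x ∈ K, α x ∉ K := hα.no_pair K hK
  constructor
  · rintro ⟨h1, h2⟩
    refine ⟨?_, ?_⟩
    · intro x hx
      have hxk : x ≠ k := fun h => hH (h ▸ hx)
      rcases h1 x (Finset.mem_insert_of_mem hx) with h | h
      · exact Or.inl (Finset.mem_erase.2 ⟨hxk, h⟩)
      · right
        refine Finset.mem_erase.2 ⟨?_, h⟩
        intro h3
        have h4 : α k = x := by rw [← h3, hα.invol]
        have h5 := (h2 k hk).1 (Finset.mem_insert_self _ _)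
        rw [h4] at h5
        exact h5 (Finset.mem_insert_of_mem hx)
    · intro k' hk'
      rw [Finset.mem_erase] at hk'
      have h3 := h2 k' hk'.2
      have h4 : α k' ≠ k := fun h => hpair k' hk'.2 (h ▸ hk)
      rw [Finset.mem_insert, Finset.mem_insert] at h3
      simpa [hk'.1, h4] using h3
  · rintro ⟨h1, h2⟩
    refine ⟨?_, ?_⟩
    · intro x hx
      rcases Finset.mem_insert.1 hx with h | h
      · exact Or.inl (h ▸ hk)
      · rcases h1 x h with h' | h'
        · exact Or.inl (Finset.mem_of_mem_erase h')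
        · exact Or.inr (Finset.mem_of_mem_erase h')
    · intro k' hk'
      by_cases hkk : k' = k
      · subst hkk
        have h3 : α k' ∉ H := by
          intro h3
          rcases h1 _ h3 with h' | h'
          · exact hpair k' hk' (Finset.mem_of_mem_erase h')
          · rw [hα.invol] at h'
            exact (Finset.notMem_erase _ _) h'
        have h4 : α k' ≠ k' := hα.fpf k'
        simp [h3, h4]
      · have h3 := h2 k' (Finset.mem_erase.2 ⟨hkk, hk'⟩)
        have h4 : α k' ≠ k := fun h => hpair k' hk' (h ▸ hk)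
        rw [Finset.mem_insert, Finset.mem_insert]
        simpa [hkk, h4] using h3

theorem fl_notMem (hα : IsCS Δ α) {K : Finset V} (hK : K ∈ Δ) {k : V} (hk : k ∈ K)
    {H : Finset V} (h : Fl α (K.erase k) H) : k ∉ H := by
  intro h1
  rcases h.1 k h1 with h' | h'
  · exact (Finset.notMem_erase _ _) h'
  · exact hα.no_pair K hK k hk (Finset.mem_of_mem_erase h')

open Classical in
/-- indicator of the flips of `K` -/
noncomputable def fO (α : Equiv.Perm V) (K F : Finset V) : ZMod 2 := if Fl α K F then 1 else 0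

open Classical in
/-- indicator of the flips of `K` containing `k` -/
noncomputable def fH (α : Equiv.Perm V) (K : Finset V) (k : V) (F : Finset V) : ZMod 2 :=
  if Fl α K F ∧ k ∈ F then 1 else 0

theorem fO_eq (hα : IsCS Δ α) {K : Finset V} {k : V} (hk : k ∈ K) (F : Finset V) :
    fH α K k F + fH α K k (F.image α) = fO α K F := by
  classical
  simp only [fH, fO, fl_im_iff hα, par_mem_im hα]
  by_cases h : Fl α K F
  · have h1 := h.2 k hk
    by_cases h2 : k ∈ F
    · have h3 := h1.1 h2
      simp [h, h2, h3]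
    · have h3 : α k ∈ F := by
        by_contra h3
        exact h2 (h1.2 h3)
      simp [h, h2, h3]
  · simp [h]

open Classical in
theorem bd_fH_sum {K : Finset V} (hall : ∀ F, Fl α K F → F ∈ Δ) (k : V) (H : Finset V) :
    bd Δ (fH α K k) H = ∑ v ∈ Finset.univ.filter (fun v => v ∉ H ∧ Fl α K (insert v H)),
      fH α K k (insert v H) := by
  simp only [bd]
  symm
  refine Finset.sum_subset ?_ ?_
  · intro v hv
    rw [Finset.mem_filter] at hv ⊢
    exact ⟨hv.1, hv.2.1, hall _ hv.2.2⟩
  · intro v hv hv'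
    rw [Finset.mem_filter] at hv hv'
    rw [fH, if_neg]
    rintro ⟨h, _⟩
    exact hv' ⟨hv.1, hv.2.1, h⟩

theorem bd_fH (hα : IsCS Δ α) {K : Finset V}
    (hK : K ∈ Δ) (hall : ∀ F, Fl α K F → F ∈ Δ) {k : V} (hk : k ∈ K) (H : Finset V) :
    bd Δ (fH α K k) H = fO α (K.erase k) H := by
  classical
  rw [bd_fH_sum hall]
  by_cases hkH : k ∈ H
  · have h0 : fO α (K.erase k) H = 0 := by
      rw [fO, if_neg]
      intro h
      exact fl_notMem hα hK hk h hkH
    rw [h0]
    have key : ∀ v, v ∉ H → Fl α K (insert v H) →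
        (α v ∉ H ∧ Fl α K (insert (α v) H)) := by
      intro v hv hfl
      have h1 : α v ∉ insert v H := hα.no_pair _ (hall _ hfl) v (Finset.mem_insert_self _ _)
      have h2 : α v ∉ H := fun h => h1 (Finset.mem_insert_of_mem h)
      refine ⟨h2, ?_, ?_⟩
      · intro x hx
        rcases Finset.mem_insert.1 hx with h | h
        · subst h
          rcases hfl.1 v (Finset.mem_insert_self _ _) with h' | h'
          · right; rwa [hα.invol]
          · exact Or.inl h'
        · exact hfl.1 x (Finset.mem_insert_of_mem h)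
      · intro k' hk'
        have h3 := hfl.2 k' hk'
        have hf := hα.fpf v
        by_cases h4 : k' = v
        · subst h4
          simp [hv, hf.symm]
        · by_cases h5 : k' = α v
          · subst h5
            rw [hα.invol]
            simp [hv, hf.symm]
          · have h6 : α k' ≠ α v := fun h => h4 (α.injective h)
            have h7 : α k' ≠ v := fun h => h5 (by rw [← h, hα.invol])
            rw [Finset.mem_insert, Finset.mem_insert] at h3 ⊢
            simpa [h4, h5, h6, h7] using h3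
    refine Finset.sum_involution (fun v _ => α v) ?_ ?_ ?_ ?_
    · intro v hv
      rw [Finset.mem_filter] at hv
      have h1 := key v hv.2.1 hv.2.2
      simp only [fH]
      rw [if_pos ⟨hv.2.2, Finset.mem_insert_of_mem hkH⟩,
        if_pos ⟨h1.2, Finset.mem_insert_of_mem hkH⟩]
      exact par_two _
    · intro v _ _
      exact hα.fpf v
    · intro v hv
      rw [Finset.mem_filter] at hv ⊢
      exact ⟨Finset.mem_univ _, key v hv.2.1 hv.2.2⟩
    · intro v _
      exact hα.invol v
  · rw [Finset.sum_eq_single k]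
    · simp only [fH, fO]
      refine if_congr ?_ rfl rfl
      rw [fl_insert hα hK hk hkH]
      exact ⟨fun h => h.1, fun h => ⟨h, Finset.mem_insert_self _ _⟩⟩
    · intro v _ hvk
      rw [fH, if_neg]
      rintro ⟨_, h⟩
      rcases Finset.mem_insert.1 h with h' | h'
      · exact hvk h'.symm
      · exact hkH h'
    · intro hk'
      rw [fH, if_neg]
      rintro ⟨h, _⟩
      exact hk' (Finset.mem_filter.2 ⟨Finset.mem_univ _, hkH, h⟩)

/-- the descent -/
theorem par_descent (hdown : ∀ F ∈ Δ, ∀ G, G ⊆ F → G ∈ Δ) (hα : IsCS Δ α) :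
    ∀ (n : ℕ) (K : Finset V), K.card = n → K ∈ Δ → (∀ F, Fl α K F → F ∈ Δ) →
      ∀ c : Finset V → ZMod 2, (∀ F ∈ Δ, F.card = n + 1 → c (F.image α) = c F) →
      (∀ F ∈ Δ, F.card = n → bd Δ c F = fO α K F) → False := by
  intro n
  induction n with
  | zero =>
    intro K hKc hK hall c hinv hbd
    obtain ⟨s, hs⟩ := par_half hα 1 le_rfl c hinv
    have hK0 : K = ∅ := Finset.card_eq_zero.1 hKc
    subst hK0
    have h1 := hbd ∅ hK rfl
    have h2 : fO α ∅ (∅ : Finset V) = 1 := by
      rw [fO, if_pos]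
      exact ⟨by simp, by simp⟩
    rw [h2, par_bd_congr Δ c (fun F => s F + s (F.image α)) ∅
      (by intro F hF hFc; exact hs F hF (by simpa using hFc)), par_bd_add, par_bd_im hα,
      Finset.image_empty, par_two] at h1
    exact absurd h1 (by decide)
  | succ n ih =>
    intro K hKc hK hall c hinv hbd
    obtain ⟨k, hk⟩ : K.Nonempty := by
      rw [← Finset.card_pos]; omega
    obtain ⟨s, hs⟩ := par_half hα (n + 1 + 1) (by omega) c hinv
    refine ih (K.erase k) (by rw [Finset.card_erase_of_mem hk, hKc]; rfl)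
      (hdown K hK _ (Finset.erase_subset _ _)) ?_ (fun F => bd Δ s F + fH α K k F) ?_ ?_
    · intro F hF
      have h1 := (fl_insert hα hK hk (fl_notMem hα hK hk hF)).2 hF
      exact hdown _ (hall _ h1) _ (Finset.subset_insert _ _)
    · intro F hF hFc
      have h1 : bd Δ c F = bd Δ s F + bd Δ s (F.image α) := by
        rw [par_bd_congr Δ c (fun F => s F + s (F.image α)) F
          (by intro E hE hEc; exact hs E hE (by omega)), par_bd_add, par_bd_im hα]
      rw [hbd F hF hFc, ← fO_eq hα hk F] at h1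
      show bd Δ s (F.image α) + fH α K k (F.image α) = bd Δ s F + fH α K k F
      apply par_eq
      have h2 : ∀ a b c d : ZMod 2, a + b = c + d → d + b + (c + a) = 0 := by decide
      exact h2 _ _ _ _ h1
    · intro F hF hFc
      rw [par_bd_add, par_bd_bd Δ hdown, zero_add, bd_fH hα hK hall hk]

end Par

theorem claimPar : ClaimPar := by
  intro V _ _ Δ α G hdown hα hG b hb hbd
  have hGΔ : G ∈ Δ := by
    have := hG.all ∅ (Finset.empty_subset _)
    simpa [flip] using this
  have hall : ∀ F, Fl α G F → F ∈ Δ := by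
    intro F hF
    obtain ⟨T, hT, rfl⟩ := (fl_iff hα hGΔ F).2 hF
    exact hG.all T hT
  refine par_descent hdown hα 3 G hG.card hGΔ hall b hb ?_
  intro F hF hFc
  rw [hbd F hF hFc]
  by_cases h : Fl α G F
  · rw [if_pos ((fl_iff hα hGΔ F).2 h), fO, if_pos h]
  · rw [if_neg (fun h' => h ((fl_iff hα hGΔ F).1 h')), fO, if_neg h]

end CSLef.Oct
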