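import Mathlib
import Pool.Agent.Work.MP_38c61c_al.Oct.Defs

/-!
The ring RR is real; the generic Lefschetz element is not antisymmetric.
-/

namespace CSLef.Oct

open MvPolynomial Finset CSLef

theorem real_aux {σ : Type} (a b c : MvPolynomial σ ℤ) (h : a * a + b * b + c * c = 0) :
    a = 0 := by
  apply MvPolynomial.funext
  intro x
  have h1 := congrArg (MvPolynomial.eval x) h
  simp only [map_add, map_mul, map_zero] at h1
  rw [map_zero]
  nlinarith [mul_self_nonneg (eval x a), mul_self_nonneg (eval x b), mul_self_nonneg (eval x c)]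

theorem claimReal1 (d : ℕ) (V : Type) (A B C : RR d V)
    (h : A * A + B * B + C * C = 0) : A = 0 := by
  obtain ⟨⟨a, s⟩, ha⟩ := IsLocalization.surj (Ideal.span {(2 : PR d V)}).primeCompl A
  obtain ⟨⟨b, t⟩, hb⟩ := IsLocalization.surj (Ideal.span {(2 : PR d V)}).primeCompl B
  obtain ⟨⟨c, u⟩, hc⟩ := IsLocalization.surj (Ideal.span {(2 : PR d V)}).primeCompl C
  simp only at ha hb hc
  have h0 : (a * t * u : PR d V) = 0 := by
    apply real_aux (a * t * u : PR d V) (b * s * u) (c * s * t)
    apply alg_inj d V
    simp only [map_add, map_mul, map_zero]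
    rw [← ha, ← hb, ← hc]
    linear_combination ((algebraMap (PR d V) (RR d V) s) * (algebraMap (PR d V) (RR d V) t) *
      (algebraMap (PR d V) (RR d V) u)) ^ 2 * h
  have h1 : A * (algebraMap (PR d V) (RR d V) s * algebraMap (PR d V) (RR d V) t *
      algebraMap (PR d V) (RR d V) u) = 0 := by
    have h2 := congrArg (algebraMap (PR d V) (RR d V)) h0
    simp only [map_mul, map_zero] at h2
    rw [← ha] at h2
    linear_combination h2
  have hs := IsLocalization.map_units (RR d V) s
  have ht := IsLocalization.map_units (RR d V) t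
  have hu := IsLocalization.map_units (RR d V) u
  exact ((hs.mul ht).mul hu).mul_left_eq_zero.mp h1

theorem claimReal : ClaimReal := by
  intro d V _ _ A B C h
  refine ⟨claimReal1 d V A B C h, claimReal1 d V B A C ?_, claimReal1 d V C A B ?_⟩
  · linear_combination h
  · linear_combination h

theorem coeff_aux {V : Type} [Fintype V] [DecidableEq V] (d : ℕ) (α : Equiv.Perm V)
    (VP : Finset V) (hinv : ∀ v, α (α v) = v) (hvp : ∀ v, v ∈ VP ↔ α v ∉ VP) (k : V) :
    coeff (Finsupp.single k 1) (∑ v ∈ VP, C (1 : ℤ) * yy ℤ α v) = 1 := by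
  have h1 : ∀ v, coeff (Finsupp.single k 1) (C (1 : ℤ) * yy ℤ α v) =
      (if v = k then 1 else 0) + (if v = α k then 1 else 0) := by
    intro v
    rw [map_one, one_mul]
    unfold yy
    rw [coeff_add]
    have e : ∀ w : V, coeff (Finsupp.single k 1) (X w : MvPolynomial V ℤ) =
        if w = k then 1 else 0 := by
      intro w
      rw [coeff_X]
      by_cases hw : w = k
      · rw [if_pos hw, if_pos (by rw [hw])]
      · rw [if_neg hw, if_neg]
        intro h
        exact hw (Finsupp.single_left_injective one_ne_zero h)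
    rw [e, e]
    congr 1
    by_cases hw : α v = k
    · rw [if_pos hw, if_pos]
      rw [← hw, hinv]
    · rw [if_neg hw, if_neg]
      rintro rfl
      exact hw (hinv k)
  rw [coeff_sum, Finset.sum_congr rfl (fun v _ => h1 v), Finset.sum_add_distrib,
    Finset.sum_ite_eq', Finset.sum_ite_eq']
  by_cases hk : k ∈ VP
  · rw [if_pos hk, if_neg ((hvp k).mp hk), add_zero]
  · have : α k ∈ VP := by
      by_contra h
      exact hk ((hvp k).mpr h)
    rw [if_neg hk, if_pos this, zero_add]

theorem claimOm : ClaimOm := by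
  intro d V _ _ α VP hinv hvp k
  rw [← map_welA (algebraMap (PR d V) (RR d V)) (aP d α VP) muP cP, coeff_map, coeff_map,
    ← map_add]
  intro h0
  rw [← map_zero (algebraMap (PR d V) (RR d V))] at h0
  have h1 := alg_inj d V h0
  set x : Om d V → ℤ := fun i => match i with
    | Sum.inl _ => 0
    | Sum.inr (Sum.inl _) => 0
    | Sum.inr (Sum.inr _) => 1 with hx
  have h2 := congrArg (MvPolynomial.eval x) h1
  rw [map_add, map_zero, ← coeff_map, ← coeff_map, map_welA] at h2
  have hmu : ∀ l, eval x (muP l : PR d V) = 0 := by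
    intro l
    unfold muP
    by_cases hl : l < d
    · rw [dif_pos hl, eval_X]
    · rw [dif_neg hl, map_zero]
  have hc : ∀ v, eval x (cP v : PR d V) = 1 := by
    intro v
    unfold cP
    rw [eval_X]
  have hw : welA d α VP (fun l v => eval x (aP d α VP l v)) (fun l => eval x (muP l : PR d V))
      (fun v => eval x (cP v : PR d V)) = ∑ v ∈ VP, C (1 : ℤ) * yy ℤ α v := by
    unfold welA
    simp only [hmu, hc, map_zero, zero_mul, Finset.sum_const_zero, zero_add]
  rw [hw, coeff_aux d α VP hinv hvp, coeff_aux d α VP hinv hvp] at h2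
  norm_num at h2

end CSLef.Oct
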