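import Pool.Agent.Work.MP_38c61c_al.Oct.Par

/-!
Separation: an invariant octahedron has two sides.
-/

namespace CSLef.Oct

open Finset CSLef

section Side

variable {V : Type} [Fintype V] [DecidableEq V] {Δ : Finset (Finset V)} {α : Equiv.Perm V}

theorem side_ne : ∀ z : ZMod 2, z ≠ 0 → z = 1 := by decide

theorem fO_im (hα : IsCS Δ α) (K F : Finset V) : fO α K (F.image α) = fO α K F := by
  classical
  simp only [fO, fl_im_iff hα]

theorem side_cycle (hα : IsCS Δ α) {K : Finset V} (hK : K ∈ Δ)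
    (hall : ∀ F, Fl α K F → F ∈ Δ) {k : V} (hk : k ∈ K) (H : Finset V) :
    bd Δ (fO α K) H = 0 := by
  have h1 : bd Δ (fO α K) H = bd Δ (fun F => fH α K k F + fH α K k (F.image α)) H :=
    par_bd_congr Δ _ _ H (fun F _ _ => (fO_eq hα hk F).symm)
  rw [h1, par_bd_add, par_bd_im hα, bd_fH hα hK hall hk, bd_fH hα hK hall hk, fO_im hα]
  exact par_two _

end Side

theorem claimSide (h : ClaimPar) : ClaimSide := by
  classical
  intro V _ _ Δ α G hS hα hG
  have hdown := hS.down
  have hGΔ : G ∈ Δ := by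
    have := hG.all ∅ (Finset.empty_subset _)
    simpa [flip] using this
  have hall : ∀ F, Fl α G F → F ∈ Δ := by
    intro F hF
    obtain ⟨T, hT, rfl⟩ := (fl_iff hα hGΔ F).2 hF
    exact hG.all T hT
  obtain ⟨k, hk⟩ : G.Nonempty := by
    rw [← Finset.card_pos, hG.card]; omega
  obtain ⟨b, hb⟩ := hS.acyclic ∅ hS.empty_mem 3 (by simp) (by omega) (fO α G)
    (fun H _ _ _ => side_cycle hα hGΔ hall hk H)
  have hb' : ∀ F ∈ Δ, F.card = 3 → bd Δ b F = fO α G F :=
    fun F hF hFc => hb F hF (Finset.empty_subset _) hFc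
  obtain ⟨z, hz⟩ := (hS.top ∅ hS.empty_mem (fun F => b F + b (F.image α))).1 (by
    intro H hH _ hHc
    have hc3 : H.card = 3 := by omega
    have hc3' : (H.image α).card = 3 := by
      rw [Finset.card_image_of_injective _ α.injective, hc3]
    rw [par_bd_add, par_bd_im hα, hb' H hH hc3, hb' _ (hα.map_mem H hH) hc3', fO_im hα]
    exact par_two _)
  have hz' : ∀ F ∈ Δ, F.card = 4 → b F + b (F.image α) = z :=
    fun F hF hFc => hz F hF (Finset.empty_subset _) hFc
  have hz1 : z = 1 := by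
    apply side_ne
    intro hz0
    refine h Δ α G hdown hα hG b ?_ ?_
    · intro F hF hFc
      have h1 := hz' F hF hFc
      rw [hz0] at h1
      exact (par_eq _ _ h1).symm
    · intro F hF hFc
      rw [hb' F hF hFc]
      by_cases hfl : Fl α G F
      · rw [if_pos ((fl_iff hα hGΔ F).2 hfl), fO, if_pos hfl]
      · rw [if_neg (fun h' => hfl ((fl_iff hα hGΔ F).1 h')), fO, if_neg hfl]
  subst hz1
  have hv : ∀ v, {v} ∈ Δ → v ∉ G → α v ∉ G → ∃ y, ∀ F ∈ Δ, v ∈ F → F.card = 4 → b F = y := by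
    intro v hvΔ hvG hvG'
    obtain ⟨y, hy⟩ := (hS.top {v} hvΔ b).1 (by
      intro H hH hvH hHc
      rw [hb' H hH (by omega), fO, if_neg]
      rintro ⟨h1, _⟩
      rcases h1 v (Finset.singleton_subset_iff.1 hvH) with h' | h'
      · exact hvG h'
      · exact hvG' h')
    exact ⟨y, fun F hF hvF hFc => hy F hF (Finset.singleton_subset_iff.2 hvF) hFc⟩
  set I : Finset V := Finset.univ.filter (fun v => {v} ∈ Δ ∧ v ∉ G ∧ α v ∉ G ∧
    ∀ F ∈ Δ, F.card = 4 → v ∈ F → b F = 1) with hI
  have hmI : ∀ v, v ∈ I ↔ {v} ∈ Δ ∧ v ∉ G ∧ α v ∉ G ∧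
      ∀ F ∈ Δ, F.card = 4 → v ∈ F → b F = 1 := by
    intro v
    rw [hI, Finset.mem_filter]
    exact ⟨fun h => h.2, fun h => ⟨Finset.mem_univ _, h⟩⟩
  have hoff : ∀ v, v ∉ G → insert v G ∈ Δ → {v} ∈ Δ ∧ α v ∉ G ∧ (insert v G).card = 4 := by
    intro v hvG hvΔ
    refine ⟨hdown _ hvΔ _ (Finset.singleton_subset_iff.2 (Finset.mem_insert_self _ _)), ?_, ?_⟩
    · intro h'
      exact hα.no_pair _ hvΔ v (Finset.mem_insert_self _ _) (Finset.mem_insert_of_mem h')
    · rw [Finset.card_insert_of_notMem hvG, hG.card]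
  have hone : fO α G G = 1 := by
    rw [fO, if_pos]
    rw [← fl_iff hα hGΔ]
    exact ⟨∅, Finset.empty_subset _, by simp [flip]⟩
  have hsum : ∑ v ∈ Finset.univ.filter (fun v => v ∉ G ∧ insert v G ∈ Δ), b (insert v G) = 1 := by
    have h1 := hb' G hGΔ hG.card
    rw [hone] at h1
    exact h1
  obtain ⟨v0, hv0, hv0b⟩ : ∃ v ∈ Finset.univ.filter (fun v => v ∉ G ∧ insert v G ∈ Δ),
      b (insert v G) ≠ 0 := by
    by_contra hne
    push Not at hne
    rw [Finset.sum_eq_zero hne] at hsum
    exact zero_ne_one hsum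
  rw [Finset.mem_filter] at hv0
  have hv0I : v0 ∈ I := by
    obtain ⟨h1, h2, h3⟩ := hoff v0 hv0.2.1 hv0.2.2
    rw [hmI]
    refine ⟨h1, hv0.2.1, h2, ?_⟩
    intro F hF hFc hvF
    obtain ⟨y, hy⟩ := hv v0 h1 hv0.2.1 h2
    rw [hy F hF hvF hFc, ← hy _ hv0.2.2 (Finset.mem_insert_self _ _) h3]
    exact side_ne _ hv0b
  refine ⟨I, v0, hG, ?_, ?_, ?_, hv0I, hv0.2.2, ?_⟩
  · intro v hvI
    rw [hmI] at hvI
    exact ⟨hvI.2.1, hvI.2.2.1⟩
  · intro v hvΔ hvG hvG'
    obtain ⟨y, hy⟩ := hv v hvΔ hvG hvG'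
    by_cases hy1 : y = 1
    · left
      rw [hmI]
      exact ⟨hvΔ, hvG, hvG', fun F hF hFc hvF => by rw [hy F hF hvF hFc, hy1]⟩
    · right
      have hy0 : y = 0 := by
        by_contra hy0
        exact hy1 (side_ne y hy0)
      have hvΔ' : {α v} ∈ Δ := by
        have := hα.map_mem _ hvΔ
        rwa [Finset.image_singleton] at this
      obtain ⟨y', hy'⟩ := hv (α v) hvΔ' hvG' (by rw [hα.invol]; exact hvG)
      obtain ⟨E, hE, hvE, hEc⟩ := exists_facet hS {v} hvΔ
      have hvE' : v ∈ E := Finset.singleton_subset_iff.1 hvE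
      have h1 := hz' E hE hEc
      have h2 : α v ∈ E.image α := Finset.mem_image_of_mem _ hvE'
      have h3 : (E.image α).card = 4 := by
        rw [Finset.card_image_of_injective _ α.injective, hEc]
      rw [hy E hE hvE' hEc, hy0, zero_add, hy' _ (hα.map_mem E hE) h2 h3] at h1
      rw [hmI]
      refine ⟨hvΔ', hvG', by rw [hα.invol]; exact hvG, ?_⟩
      intro F hF hFc hvF
      rw [hy' F hF hvF hFc, h1]
  · intro F hF v hvI hvF u huI huF
    rw [hmI] at hvI huI
    obtain ⟨E, hE, hFE, hEc⟩ := exists_facet hS F hF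
    have h1 := hz' E hE hEc
    have h3 : (E.image α).card = 4 := by
      rw [Finset.card_image_of_injective _ α.injective, hEc]
    have h4 : u ∈ E.image α := by
      rw [par_mem_im hα]
      exact hFE huF
    rw [hvI.2.2.2 E hE hEc (hFE hvF), huI.2.2.2 _ (hα.map_mem E hE) h3 h4] at h1
    exact absurd h1 (by decide)
  · intro v1 hv1I hv1Δ
    by_contra hne
    rw [hmI] at hv1I hv0I
    have hv1S : v1 ∈ Finset.univ.filter (fun v => v ∉ G ∧ insert v G ∈ Δ) :=
      Finset.mem_filter.2 ⟨Finset.mem_univ _, hv1I.2.1, hv1Δ⟩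
    have hv0S : v0 ∈ Finset.univ.filter (fun v => v ∉ G ∧ insert v G ∈ Δ) :=
      Finset.mem_filter.2 ⟨Finset.mem_univ _, hv0.2⟩
    have hins : ∀ u v, u ∉ G → insert u G = insert v G → u = v := by
      intro u v hu huv
      have h1 : u ∈ insert v G := huv ▸ Finset.mem_insert_self _ _
      rcases Finset.mem_insert.1 h1 with h' | h'
      · exact h'
      · exact absurd h' hu
    obtain ⟨y, hy⟩ := (hS.top G hGΔ (fun F => if F = insert v1 G ∨ F = insert v0 G
      then (1 : ZMod 2) else 0)).1 (by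
        intro H hH hGH hHc
        have hHG : H = G := (Finset.eq_of_subset_of_card_le hGH (by rw [hG.card]; omega)).symm
        subst hHG
        simp only [bd]
        rw [← Finset.sum_subset (s₁ := {v1, v0})]
        · rw [Finset.sum_pair hne]
          simp only [true_or, or_true, if_true]
          exact par_two _
        · intro x hx
          rcases Finset.mem_insert.1 hx with h' | h'
          · rw [h']; exact hv1S
          · rw [Finset.mem_singleton.1 h']; exact hv0S
        · intro x hx hx'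
          rw [Finset.mem_filter] at hx
          rw [if_neg]
          rintro (h' | h')
          · exact hx' (Finset.mem_insert.2 (Or.inl (hins x v1 hx.2.1 h')))
          · exact hx' (Finset.mem_insert_of_mem
              (Finset.mem_singleton.2 (hins x v0 hx.2.1 h'))))
    have hy1 : y = 1 := by
      rw [← hy _ hv1Δ (Finset.subset_insert _ _) (hoff v1 hv1I.2.1 hv1Δ).2.2]
      simp
    have hSeq : Finset.univ.filter (fun v => v ∉ G ∧ insert v G ∈ Δ) = {v1, v0} := by
      apply Finset.Subset.antisymm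
      · intro x hx
        rw [Finset.mem_filter] at hx
        have h1 := hy _ hx.2.2 (Finset.subset_insert _ _) (hoff x hx.2.1 hx.2.2).2.2
        rw [hy1] at h1
        by_cases h2 : insert x G = insert v1 G ∨ insert x G = insert v0 G
        · rcases h2 with h' | h'
          · exact Finset.mem_insert.2 (Or.inl (hins x v1 hx.2.1 h'))
          · exact Finset.mem_insert_of_mem (Finset.mem_singleton.2 (hins x v0 hx.2.1 h'))
        · rw [if_neg h2] at h1
          exact absurd h1 zero_ne_one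
      · intro x hx
        rcases Finset.mem_insert.1 hx with h' | h'
        · rw [h']; exact hv1S
        · rw [Finset.mem_singleton.1 h']; exact hv0S
    rw [hSeq, Finset.sum_pair hne,
      hv1I.2.2.2 _ hv1Δ (hoff v1 hv1I.2.1 hv1Δ).2.2 (Finset.mem_insert_self _ _),
      hv0I.2.2.2 _ hv0.2.2 (hoff v0 hv0.2.1 hv0.2.2).2.2 (Finset.mem_insert_self _ _)] at hsum
    exact absurd hsum (by decide)

end CSLef.Oct
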